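import Pool.Agent.Ambrose.AbsDefs

/-!
# Ambrose, part A: the margin lemma (3.2)
-/

open Metric Set Filter Topology

namespace Pool.Ambrose

variable {M P : Type*} [MetricSpace M] {d : RollData M P} {S ρ C : ℝ}

namespace Margin

lemma reach_mono {μ ℓ ℓ' : ℝ} {A : P} (hA : d.Reach μ ℓ A) (h : ℓ ≤ ℓ') : d.Reach μ ℓ' A := by
  cases hA with
  | base h0 => exact .base (h0.trans h)
  | step h1 h2 h3 => exact .step h1 h2 (h3.trans h)

lemma fan2 (h : RollAx d S ρ C) {B : P} {y0 y1 : M} {η : ℝ} (hB : d.sz B ≤ S - 1)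
    (hη : η < ρ / 2) (hD : ∀ x, dist (d.pr B) x ≤ η → d.D (d.mv B x) = 0)
    (h0 : dist (d.pr B) y0 ≤ η) (h1 : dist (d.pr B) y1 ≤ η) :
    d.mv (d.mv B y0) y1 = d.mv B y1 := by
  have hρ := h.rho_le_one
  have hρ0 := h.rho_pos
  have hp : dist d.p (d.pr B) ≤ S - 1 := (h.dist_le_sz B).trans hB
  have hp0 : dist d.p y0 ≤ S := by linarith [dist_triangle d.p (d.pr B) y0]
  have hp1 : dist d.p y1 ≤ S := by linarith [dist_triangle d.p (d.pr B) y1]
  have h01 : dist y0 y1 < ρ := by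
    have := dist_triangle y0 (d.pr B) y1
    rw [dist_comm y0 (d.pr B)] at this
    linarith
  refine h.tri0 B y0 y1 (by linarith) hp0 hp1 (by linarith) (by linarith) h01 ?_
  intro y x hy hx
  apply hD
  have hc := h.conv (d.pr B) y0 y1 y (by linarith) hp0 hp1 (by linarith) (by linarith) h01 hy
  have : dist (d.pr B) y ≤ η := hc.trans (max_le h0 h1)
  unfold Btw at hx
  linarith [dist_nonneg (x := x) (y := y)]

/-- basic facts on the holonomy along a step path -/
lemma hol_facts (h : RollAx d S ρ C) {c : ℕ → M} {N : ℕ} {ℓ : ℝ} (h0 : c 0 = d.p)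
    (hc : ∀ i < N, dist (c i) (c (i + 1)) ≤ ℓ) (hℓ : ℓ < ρ) (hℓ0 : 0 ≤ ℓ) (hS : N * ℓ ≤ S) :
    ∀ m ≤ N, d.pr (d.hol c m) = c m ∧ d.sz (d.hol c m) ≤ m * ℓ ∧ d.Reach ρ (m * ℓ) (d.hol c m) := by
  intro m
  induction m with
  | zero =>
    intro _
    refine ⟨?_, ?_, ?_⟩
    · rw [RollData.hol, h.pr_A0, h0]
    · rw [RollData.hol, h.sz_A0]; simp
    · exact .base (by simp)
  | succ m ih =>
    intro hm
    obtain ⟨i1, i2, i3⟩ := ih (by omega)
    have hmN : ((m : ℝ) + 1) * ℓ ≤ S := by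
      have : ((m : ℝ) + 1) ≤ N := by exact_mod_cast hm
      exact (mul_le_mul_of_nonneg_right this hℓ0).trans hS
    have hd := hc m (by omega)
    have hsz : d.sz (d.hol c m) ≤ S := by linarith [i2]
    have hp : dist d.p (c (m + 1)) ≤ S := by
      have h1 := h.dist_le_sz (d.hol c m)
      rw [i1] at h1
      linarith [dist_triangle d.p (c m) (c (m + 1))]
    have hlt : dist (d.pr (d.hol c m)) (c (m + 1)) < ρ := by rw [i1]; linarith
    refine ⟨h.pr_mv _ _ hsz hp hlt, ?_, ?_⟩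
    · have := h.sz_mv _ _ hsz hp hlt
      rw [i1] at this
      rw [RollData.hol]
      push_cast
      linarith
    · refine .step i3 hlt ?_
      rw [i1]; push_cast; linarith

/-- the same for a point on the step `i` -/
lemma pt_facts (h : RollAx d S ρ C) {c : ℕ → M} {N : ℕ} {ℓ : ℝ} (h0 : c 0 = d.p)
    (hc : ∀ i < N, dist (c i) (c (i + 1)) ≤ ℓ) (hℓ : ℓ < ρ) (hℓ0 : 0 ≤ ℓ) (hS : N * ℓ ≤ S)
    {i : ℕ} (hi : i < N) {s : ℝ} (hs1 : s ≤ 1) {y : M} (hy : dist (c i) y ≤ s * ℓ) :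
    d.pr (d.mv (d.hol c i) y) = y ∧ d.sz (d.mv (d.hol c i) y) ≤ (i + s) * ℓ ∧
      d.Reach ρ ((i + s) * ℓ) (d.mv (d.hol c i) y) ∧ dist d.p y ≤ (i + s) * ℓ := by
  obtain ⟨i1, i2, i3⟩ := hol_facts h h0 hc hℓ hℓ0 hS i hi.le
  have hiN : ((i : ℝ) + 1) * ℓ ≤ S := by
    have : ((i : ℝ) + 1) ≤ N := by exact_mod_cast hi
    exact (mul_le_mul_of_nonneg_right this hℓ0).trans hS
  have hsl : s * ℓ ≤ ℓ := by nlinarith
  have hsz : d.sz (d.hol c i) ≤ S := by linarith
  have hdy : dist d.p y ≤ (i + s) * ℓ := by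
    have h1 := h.dist_le_sz (d.hol c i)
    rw [i1] at h1
    linarith [dist_triangle d.p (c i) y]
  have hp : dist d.p y ≤ S := by linarith
  have hlt : dist (d.pr (d.hol c i)) y < ρ := by rw [i1]; linarith
  refine ⟨h.pr_mv _ _ hsz hp hlt, ?_, ?_, hdy⟩
  · have := h.sz_mv _ _ hsz hp hlt
    rw [i1] at this
    linarith
  · refine .step i3 hlt ?_
    rw [i1]; linarith

/-- The shortcut: the piece from `c j` to the midpoint `z` of `[y, x]` may be replaced by the
short segment. -/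
lemma shortcut (h : RollAx d S ρ C) {r : ℝ} (hZ : d.Z ρ r) {c : ℕ → M} {N : ℕ} {ℓ : ℝ}
    (h0 : c 0 = d.p)
    (hc : ∀ i < N, dist (c i) (c (i + 1)) ≤ ℓ) (hℓ : ℓ < ρ) (hℓ0 : 0 ≤ ℓ) (hS : N * ℓ ≤ S - 1)
    {i j : ℕ} (hi : i < N) (hj : j ≤ i) {s : ℝ} (hs0 : 0 ≤ s) (hs1 : s ≤ 1) {y x z : M}
    (hy : dist (c i) y ≤ s * ℓ) (hx : dist y x < ρ)
    (hz1 : dist y z = dist y x / 2) (hz2 : dist z x = dist y x / 2)
    (H1 : (i + s) * ℓ + dist y x / 2 < r) (H2 : (i - j + s) * ℓ + dist y x / 2 < ρ / 2) :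
    d.Reach ρ (j * ℓ + dist (c j) z + dist z x) (d.mv (d.mv (d.hol c i) y) x) := by
  have hρ := h.rho_le_one
  have hρ0 := h.rho_pos
  have hS' : N * ℓ ≤ S := by linarith
  have hjN : j ≤ N := by omega
  obtain ⟨j1, j2, j3⟩ := hol_facts h h0 hc hℓ hℓ0 hS' j hjN
  obtain ⟨i1, i2, i3⟩ := hol_facts h h0 hc hℓ hℓ0 hS' i hi.le
  obtain ⟨y1, y2, y3, y4⟩ := pt_facts h h0 hc hℓ hℓ0 hS' hi hs1 hy
  have hjl : (j : ℝ) * ℓ ≤ N * ℓ := mul_le_mul_of_nonneg_right (by exact_mod_cast hjN) hℓ0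
  have hil : ((i : ℝ) + 1) * ℓ ≤ N * ℓ :=
    mul_le_mul_of_nonneg_right (by exact_mod_cast hi) hℓ0
  have hsl : s * ℓ ≤ ℓ := by nlinarith
  have hsl0 : 0 ≤ s * ℓ := mul_nonneg hs0 hℓ0
  set B := d.hol c j with hB
  set η := (i - j + s) * ℓ + dist y x / 2 with hη
  have hη' : η = i * ℓ - j * ℓ + s * ℓ + dist y x / 2 := by rw [hη]; ring
  have hyx := dist_nonneg (x := y) (y := x)
  have hB' : d.sz B ≤ S - 1 := by linarith
  have hD : ∀ x', dist (d.pr B) x' ≤ η → d.D (d.mv B x') = 0 := by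
    intro x' hx'
    refine hZ (j * ℓ + η) _ ?_ (.step j3 (by linarith) (by linarith))
    rw [hη']; linarith
  -- distances of the vertices from `c j`
  have hdist : ∀ m, j ≤ m → m ≤ i → dist (c j) (c m) ≤ (m - j) * ℓ := by
    intro m hm
    induction m, hm using Nat.le_induction with
    | base => intro _; simp
    | succ m hm ih =>
      intro hmi
      have h1 := ih (by omega)
      have h2 := hc m (by omega)
      push_cast
      linarith [dist_triangle (c j) (c m) (c (m + 1))]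
  have hmi : ∀ m, j ≤ m → m ≤ i → dist (d.pr B) (c m) ≤ η := by
    intro m hm hmi
    rw [j1]
    have h1 := hdist m hm hmi
    have h2 : ((m : ℝ) - j) * ℓ ≤ (i - j) * ℓ :=
      mul_le_mul_of_nonneg_right (by have : (m : ℝ) ≤ i := by exact_mod_cast hmi
                                     linarith) hℓ0
    rw [hη']; linarith
  have hfan : ∀ m, j ≤ m → m ≤ i → d.hol c m = d.mv B (c m) := by
    intro m hm
    induction m, hm using Nat.le_induction with
    | base =>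
      intro _
      have := h.mv_self B (by linarith)
      rw [j1] at this
      rw [this]
    | succ m hm ih =>
      intro hmi'
      rw [RollData.hol, ih (by omega)]
      exact fan2 h hB' H2 hD (hmi m hm (by omega)) (hmi (m + 1) (by omega) hmi')
  have hyB : dist (d.pr B) y ≤ η := by
    rw [j1]
    have h1 := hdist i hj le_rfl
    rw [hη']
    linarith [dist_triangle (c j) (c i) y]
  have hzB : dist (d.pr B) z ≤ η := by
    rw [j1]
    have h1 := hdist i hj le_rfl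
    rw [hη']
    linarith [dist_triangle (c j) (c i) y, dist_triangle (c j) y z]
  have e1 : d.mv (d.hol c i) y = d.mv B y := by
    rw [hfan i hj le_rfl]
    exact fan2 h hB' H2 hD (hmi i hj le_rfl) hyB
  have e2 : d.mv (d.mv (d.hol c i) y) z = d.mv B z := by
    rw [e1]
    exact fan2 h hB' H2 hD hyB hzB
  have hpx : dist d.p x ≤ S := by linarith [dist_triangle d.p y x]
  have hpz : dist d.p z ≤ S := by linarith [dist_triangle d.p y z]
  have e3 : d.mv (d.mv (d.hol c i) y) x = d.mv (d.mv B z) x := by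
    rw [← e2]
    refine (h.mv_mv _ z x (by linarith) hpx (by rw [y1]; exact hx) ?_).symm
    rw [y1]; unfold Btw; linarith
  rw [e3]
  have hprz : d.pr (d.mv B z) = z := h.pr_mv _ _ (by linarith) hpz (by linarith)
  refine .step (.step j3 (by linarith) le_rfl) ?_ ?_
  · rw [hprz]; linarith
  · rw [hprz, j1]

/-- limits along an ultrafilter -/
lemma ulim {X : Type*} [TopologicalSpace X] {K : Set X} (hK : IsCompact K) (u : ℕ → X)
    (hu : ∀ n, u n ∈ K) : ∃ x ∈ K, Tendsto u (hyperfilter ℕ : Filter ℕ) (𝓝 x) := by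
  obtain ⟨x, hx, hx'⟩ := hK.ultrafilter_le_nhds ((hyperfilter ℕ).map u) (by
    rw [Ultrafilter.coe_map, le_principal_iff, mem_map]
    exact Filter.univ_mem' hu)
  exact ⟨x, hx, hx'⟩

/-- distances along a step path -/
lemma dist_path {c : ℕ → M} {N : ℕ} {ℓ : ℝ} (hc : ∀ i < N, dist (c i) (c (i + 1)) ≤ ℓ)
    {a b : ℕ} (hab : a ≤ b) (hb : b ≤ N) : dist (c a) (c b) ≤ (b - a) * ℓ := by
  induction b, hab using Nat.le_induction with
  | base => simp
  | succ m hm ih =>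
    have h1 := ih (by omega)
    have h2 := hc m (by omega)
    push_cast
    linarith [dist_triangle (c a) (c m) (c (m + 1))]

/-- The contradiction in the limit configuration. -/
lemma limit_false (h : RollAx d S ρ C) {N : ℕ} {r ℓ η s : ℝ} (hr : 0 < r)
    (hℓ : N * ℓ = r) (hℓ0 : 0 < ℓ) (hℓρ : 100 * ℓ < ρ) (hη' : η ≤ ρ / 4)
    {i j : ℕ} (_hi : i < N) (hjN : 2 * ((N - j) * ℓ) < ρ)
    (hjmin : j ≠ 0 → ρ ≤ 2 * ((N - j + 1) * ℓ)) (hs1 : s ≤ 1) (his : i + s < N)
    {a a' y y' x z z' : M} (hj0 : j = 0 → a = a')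
    (pa : dist d.p a ≤ S) (pa' : dist d.p a' ≤ S) (px : dist d.p x ≤ S)
    (pz : dist d.p z ≤ S) (pz' : dist d.p z' ≤ S)
    (L1 : dist y y' ≤ 2 * ((N - (i + s)) * ℓ)) (L2 : r ≤ (i + s) * ℓ + dist y x)
    (L2' : r ≤ (i + s) * ℓ + dist y' x) (L3 : dist y x + dist x y' = dist y y')
    (L4 : dist y z = dist y x / 2) (L4b : dist z x = dist y x / 2)
    (L4' : dist y' z' = dist y' x / 2) (L4b' : dist z' x = dist y' x / 2)
    (L5 : j ≤ i → dist a y ≤ (i - j + s) * ℓ) (L5' : j ≤ i → dist a' y' ≤ (i - j + s) * ℓ)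
    (L6 : j ≤ i → (i + s) * ℓ + dist y x / 2 < r → (i - j + s) * ℓ + dist y x / 2 < ρ / 2 →
      r ≤ j * ℓ + dist a z + dist z x)
    (L6' : j ≤ i → (i + s) * ℓ + dist y' x / 2 < r → (i - j + s) * ℓ + dist y' x / 2 < ρ / 2 →
      r ≤ j * ℓ + dist a' z' + dist z' x)
    (L7 : dist a a' ≤ η) (L7' : dist y y' ≤ η + 2 * ℓ) : False := by
  have hρ0 := h.rho_pos
  obtain ⟨q, hq⟩ : ∃ q, q = (N - (i + s)) * ℓ := ⟨_, rfl⟩
  have hq0 : 0 < q := by
    rw [hq]; exact mul_pos (by linarith) hℓ0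
  have hqr : (i + s) * ℓ = r - q := by rw [hq, ← hℓ]; ring
  rw [← hq] at L1
  rw [hqr] at L2 L2'
  rw [dist_comm x y'] at L3
  have e1 : dist y x = q := by linarith
  have e2 : dist y' x = q := by linarith
  have e3 : dist y y' = 2 * q := by linarith
  have hji : j ≤ i := by
    by_contra hcon
    have h1 := hjmin (by omega)
    have h2 : (i : ℝ) + 1 ≤ j := by exact_mod_cast (by omega : i + 1 ≤ j)
    have h3 : ((N : ℝ) - j) * ℓ ≤ (N - (i + s)) * ℓ :=
      mul_le_mul_of_nonneg_right (by linarith) hℓ0.le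
    have h4 : ((N : ℝ) - j + 1) * ℓ = (N - j) * ℓ + ℓ := by ring
    rw [h4] at h1
    rw [← hq] at h3
    linarith
  obtain ⟨Q, hQ⟩ : ∃ Q, Q = ((N : ℝ) - j) * ℓ := ⟨_, rfl⟩
  have hQq : (i - j + s) * ℓ = Q - q := by rw [hQ, hq]; ring
  have hjl : j * ℓ = r - Q := by rw [hQ, ← hℓ]; ring
  rw [← hQ] at hjN
  have k5 := L5 hji
  have k5' := L5' hji
  have k6 := L6 hji (by rw [hqr, e1]; linarith) (by rw [hQq, e1]; linarith)
  have k6' := L6' hji (by rw [hqr, e2]; linarith) (by rw [hQq, e2]; linarith)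
  rw [hQq] at k5 k5'
  rw [hjl] at k6 k6'
  rw [e1] at L4 L4b
  rw [e2] at L4' L4b'
  have t1 := dist_triangle a y z
  have t1' := dist_triangle a' y' z'
  have f1 : dist a z = Q - q / 2 := by linarith
  have f2 : dist a y = Q - q := by linarith
  have f1' : dist a' z' = Q - q / 2 := by linarith
  have f2' : dist a' y' = Q - q := by linarith
  have nyz : y ≠ z := by
    intro hh; rw [hh, dist_self] at L4; linarith
  have nxz : x ≠ z := by
    intro hh; rw [hh, dist_self] at L4b; linarith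
  have nyz' : y' ≠ z' := by
    intro hh; rw [hh, dist_self] at L4'; linarith
  have nxz' : x ≠ z' := by
    intro hh; rw [hh, dist_self] at L4b'; linarith
  have nyx : y ≠ x := by
    intro hh; rw [hh, dist_self] at e1; linarith
  have nyx' : y' ≠ x := by
    intro hh; rw [hh, dist_self] at e2; linarith
  have b1 : Btw a z x := by
    refine h.ext a z x y x pa pz px (by linarith) ?_ ?_ nyz nxz ?_
    · unfold Btw; linarith
    · unfold Btw; simp
    · unfold Btw; linarith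
  have b1' : Btw a' z' x := by
    refine h.ext a' z' x y' x pa' pz' px (by linarith) ?_ ?_ nyz' nxz' ?_
    · unfold Btw; linarith
    · unfold Btw; simp
    · unfold Btw; linarith
  unfold Btw at b1 b1'
  have g1 : dist a x = Q := by linarith
  have g1' : dist a' x = Q := by linarith
  have b2 : Btw a x a' := by
    refine h.ext a x a' y y' pa px pa' ?_ ?_ ?_ nyx nyx' ?_
    · rw [dist_comm x a']; linarith
    · unfold Btw; linarith
    · unfold Btw; rw [dist_comm x y', dist_comm y' a', dist_comm x a']; linarith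
    · unfold Btw; rw [dist_comm x y']; linarith
  unfold Btw at b2
  rw [dist_comm x a'] at b2
  rcases eq_or_ne j 0 with hj | hj
  · rw [hj0 hj, dist_self] at b2
    have : Q = r := by rw [hQ, hj, ← hℓ]; simp
    linarith
  · have h1 := hjmin hj
    have h4 : ((N : ℝ) - j + 1) * ℓ = (N - j) * ℓ + ℓ := by ring
    rw [h4, ← hQ] at h1
    linarith

/-- The margin lemma for a fixed step `i`. -/
theorem margin_fix [ProperSpace M] (h : RollAx d S ρ C) {N : ℕ}
    {r R η τ : ℝ} (hr : 0 < r) (hrR : r ≤ R) (hRS : R + 2 ≤ S) (hN' : 100 * (R + 1) < N * ρ)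
    (hη' : η ≤ ρ / 4) (hZ : d.Z ρ r) (hτ : 0 < τ) {i : ℕ} (hi : i < N) :
    ∃ e > 0, e ≤ 1 ∧ ∃ k > 0, ∀ c c' : ℕ → M,
      StepPath d.p N (r + e) c → StepPath d.p N (r + e) c' → c N = c' N →
      (∀ j ≤ N, dist (c j) (c' j) ≤ η) →
      ∀ s : ℝ, 0 ≤ s → s ≤ 1 → (i + s) / N ≤ 1 - τ →
      ∀ y y' x, AtSeg (c i) (c (i + 1)) s y → AtSeg (c' i) (c' (i + 1)) s y' → Btw y x y' →
        d.Reach ρ (r - k) (d.mv (d.mv (d.hol c i) y) x) ∨
        d.Reach ρ (r - k) (d.mv (d.mv (d.hol c' i) y') x) := by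
  have hρ1 := h.rho_le_one
  have hρ0 := h.rho_pos
  have hN0 : 0 < N := by omega
  have hNr : (0 : ℝ) < N := by exact_mod_cast hN0
  by_contra hcon
  push Not at hcon
  have hu : ∀ n : ℕ, (0 : ℝ) < 1 / (n + 1) := fun n => by positivity
  have hu1 : ∀ n : ℕ, (1 : ℝ) / (n + 1) ≤ 1 := fun n => by
    rw [div_le_one (by positivity)]; linarith [n.cast_nonneg (α := ℝ)]
  have hcon' := fun n : ℕ => hcon (1 / (n + 1)) (hu n) (hu1 n) (1 / (n + 1)) (hu n)
  choose c c' hc hc' hcN hcl s hs0 hs1 hT y y' x hy hy' hx hnr hnr' using hcon'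
  obtain ⟨ℓ, hℓdef⟩ : ∃ ℓ : ℕ → ℝ, ∀ n, ℓ n = (r + 1 / (n + 1)) / N := ⟨_, fun n => rfl⟩
  have hNℓ : ∀ n, N * ℓ n = r + 1 / (n + 1) := fun n => by rw [hℓdef]; field_simp
  have hNℓ1 : ∀ n, N * ℓ n ≤ S - 1 := fun n => by rw [hNℓ]; linarith [hu1 n]
  have hℓ0 : ∀ n, 0 ≤ ℓ n := fun n => by rw [hℓdef]; have := hu n; positivity
  have hℓρ : ∀ n, 100 * ℓ n < ρ := fun n => by
    rw [hℓdef, mul_div_assoc', div_lt_iff₀ hNr]
    have := hu1 n
    nlinarith
  have hℓρ' : ∀ n, ℓ n < ρ := fun n => by linarith [hℓρ n, hℓ0 n]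
  have hst : ∀ n, ∀ m < N, dist (c n m) (c n (m + 1)) ≤ ℓ n := fun n m hm => by
    rw [hℓdef]; exact (hc n).2 m hm
  have hst' : ∀ n, ∀ m < N, dist (c' n m) (c' n (m + 1)) ≤ ℓ n := fun n m hm => by
    rw [hℓdef]; exact (hc' n).2 m hm
  have hyl : ∀ n, dist (c n i) (y n) ≤ s n * ℓ n := fun n => by
    rw [(hy n).1]; exact mul_le_mul_of_nonneg_left (hst n i hi) (hs0 n)
  have hyl' : ∀ n, dist (c' n i) (y' n) ≤ s n * ℓ n := fun n => by
    rw [(hy' n).1]; exact mul_le_mul_of_nonneg_left (hst' n i hi) (hs0 n)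
  have hyr : ∀ n, dist (y n) (c n (i + 1)) ≤ (1 - s n) * ℓ n := fun n => by
    rw [(hy n).2]; exact mul_le_mul_of_nonneg_left (hst n i hi) (by linarith [hs1 n])
  have hyr' : ∀ n, dist (y' n) (c' n (i + 1)) ≤ (1 - s n) * ℓ n := fun n => by
    rw [(hy' n).2]; exact mul_le_mul_of_nonneg_left (hst' n i hi) (by linarith [hs1 n])
  have hfac := fun n => pt_facts h (hc n).1 (hst n) (hℓρ' n) (hℓ0 n) (by linarith [hNℓ1 n]) hi
    (hs1 n) (hyl n)
  have hfac' := fun n => pt_facts h (hc' n).1 (hst' n) (hℓρ' n) (hℓ0 n) (by linarith [hNℓ1 n]) hi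
    (hs1 n) (hyl' n)
  have hiN : ∀ n, ((i : ℝ) + s n) * ℓ n ≤ S - 1 := fun n => by
    have h1 : ((i : ℝ) + 1) ≤ N := by exact_mod_cast hi
    have h2 : ((i : ℝ) + s n) * ℓ n ≤ N * ℓ n :=
      mul_le_mul_of_nonneg_right (by linarith [hs1 n]) (hℓ0 n)
    linarith [hNℓ1 n]
  -- `y` and `y'` are close
  have P7' : ∀ n, dist (y n) (y' n) ≤ η + 2 * ℓ n := fun n => by
    have h1 := dist_triangle4 (y n) (c n i) (c' n i) (y' n)
    have h2 := hcl n i hi.le
    have h3 := hyl n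
    have h4 := hyl' n
    have h5 : s n * ℓ n ≤ ℓ n := by nlinarith [hs1 n, hℓ0 n]
    rw [dist_comm (y n) (c n i)] at h1
    linarith
  have P3 : ∀ n, dist (y n) (x n) + dist (x n) (y' n) = dist (y n) (y' n) := fun n => hx n
  have hyx : ∀ n, dist (y n) (x n) < ρ / 2 := fun n => by
    have := dist_nonneg (x := x n) (y := y' n)
    linarith [P3 n, P7' n, hℓρ n]
  have hyx' : ∀ n, dist (y' n) (x n) < ρ / 2 := fun n => by
    have := dist_nonneg (x := y n) (y := x n)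
    rw [dist_comm (y' n) (x n)]
    linarith [P3 n, P7' n, hℓρ n]
  have hpy : ∀ n, dist d.p (y n) ≤ S - 1 := fun n => by linarith [(hfac n).2.2.2, hiN n]
  have hpy' : ∀ n, dist d.p (y' n) ≤ S - 1 := fun n => by linarith [(hfac' n).2.2.2, hiN n]
  have hpx : ∀ n, dist d.p (x n) ≤ S := fun n => by
    linarith [dist_triangle d.p (y n) (x n), hpy n, hyx n]
  -- midpoints
  have hz := fun n => h.exists_atSeg (y n) (x n) (by linarith [hpy n]) (hpx n)
    (by linarith [hyx n]) (1 / 2) (by norm_num) (by norm_num)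
  have hz' := fun n => h.exists_atSeg (y' n) (x n) (by linarith [hpy' n]) (hpx n)
    (by linarith [hyx' n]) (1 / 2) (by norm_num) (by norm_num)
  choose z hz using hz
  choose z' hz' using hz'
  have P4 : ∀ n, dist (y n) (z n) = dist (y n) (x n) / 2 := fun n => by rw [(hz n).1]; ring
  have P4b : ∀ n, dist (z n) (x n) = dist (y n) (x n) / 2 := fun n => by rw [(hz n).2]; ring
  have P4' : ∀ n, dist (y' n) (z' n) = dist (y' n) (x n) / 2 := fun n => by rw [(hz' n).1]; ring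
  have P4b' : ∀ n, dist (z' n) (x n) = dist (y' n) (x n) / 2 := fun n => by
    rw [(hz' n).2]; ring
  have hpz : ∀ n, dist d.p (z n) ≤ S := fun n => by
    linarith [dist_triangle d.p (y n) (z n), hpy n, hyx n, P4 n]
  have hpz' : ∀ n, dist d.p (z' n) ≤ S := fun n => by
    linarith [dist_triangle d.p (y' n) (z' n), hpy' n, hyx' n, P4' n]
  -- P1
  have P1 : ∀ n, dist (y n) (y' n) ≤ 2 * ((N - (i + s n)) * ℓ n) := fun n => by
    have h1 := dist_path (hst n) (show i + 1 ≤ N from hi) le_rfl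
    have h2 := dist_path (hst' n) (show i + 1 ≤ N from hi) le_rfl
    have h3 := dist_triangle (y n) (c n (i + 1)) (c n N)
    have h4 := dist_triangle (y' n) (c' n (i + 1)) (c' n N)
    have h5 := dist_triangle (y n) (c n N) (y' n)
    rw [← hcN n] at h2 h4
    rw [dist_comm (c n N) (y' n)] at h5
    have h6 := hyr n
    have h7 := hyr' n
    push_cast at h1 h2
    have e1 : ((N : ℝ) - (i + 1)) * ℓ n + (1 - s n) * ℓ n = (N - (i + s n)) * ℓ n := by ring
    linarith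
  -- P2
  have P2 : ∀ n, r - 1 / (n + 1) ≤ (i + s n) * ℓ n + dist (y n) (x n) := fun n => by
    by_contra hlt
    push Not at hlt
    refine hnr n (reach_mono (.step (hfac n).2.2.1 ?_ ?_) hlt.le)
    · rw [(hfac n).1]; linarith [hyx n]
    · rw [(hfac n).1]
  have P2' : ∀ n, r - 1 / (n + 1) ≤ (i + s n) * ℓ n + dist (y' n) (x n) := fun n => by
    by_contra hlt
    push Not at hlt
    refine hnr' n (reach_mono (.step (hfac' n).2.2.1 ?_ ?_) hlt.le)
    · rw [(hfac' n).1]; linarith [hyx' n]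
    · rw [(hfac' n).1]
  -- the index `j`
  have hexj : ∃ j : ℕ, 2 * ((N - j) * (r / N)) < ρ := ⟨N, by simpa using hρ0⟩
  classical
  obtain ⟨j, hjN, hj, hjmin⟩ : ∃ j : ℕ, j ≤ N ∧ 2 * (((N : ℝ) - j) * (r / N)) < ρ ∧
      (j ≠ 0 → ρ ≤ 2 * ((N - j + 1) * (r / N))) := by
    refine ⟨Nat.find hexj, Nat.find_min' hexj (by simpa using hρ0), Nat.find_spec hexj,
      fun hne => ?_⟩
    have h1 := Nat.find_min hexj (m := Nat.find hexj - 1) (by omega)
    push Not at h1
    rw [Nat.cast_sub (by omega)] at h1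
    push_cast at h1
    have e1 : (N : ℝ) - (Nat.find hexj - 1) = N - Nat.find hexj + 1 := by ring
    rw [e1] at h1
    exact h1
  have P5 : j ≤ i → ∀ n, dist (c n j) (y n) ≤ (i - j + s n) * ℓ n := fun hji n => by
    have h1 := dist_path (hst n) hji hi.le
    have h2 := dist_triangle (c n j) (c n i) (y n)
    linarith [hyl n]
  have P5' : j ≤ i → ∀ n, dist (c' n j) (y' n) ≤ (i - j + s n) * ℓ n := fun hji n => by
    have h1 := dist_path (hst' n) hji hi.le
    have h2 := dist_triangle (c' n j) (c' n i) (y' n)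
    linarith [hyl' n]
  have P6 : j ≤ i → ∀ n, (i + s n) * ℓ n + dist (y n) (x n) / 2 < r →
      (i - j + s n) * ℓ n + dist (y n) (x n) / 2 < ρ / 2 →
      r - 1 / (n + 1) ≤ j * ℓ n + dist (c n j) (z n) + dist (z n) (x n) := by
    intro hji n H1 H2
    by_contra hlt
    push Not at hlt
    refine hnr n (reach_mono (shortcut h hZ (hc n).1 (hst n) (hℓρ' n) (hℓ0 n) (hNℓ1 n) hi hji
      (hs0 n) (hs1 n) (hyl n) (by linarith [hyx n]) (P4 n) (P4b n) H1 H2) hlt.le)
  have P6' : j ≤ i → ∀ n, (i + s n) * ℓ n + dist (y' n) (x n) / 2 < r →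
      (i - j + s n) * ℓ n + dist (y' n) (x n) / 2 < ρ / 2 →
      r - 1 / (n + 1) ≤ j * ℓ n + dist (c' n j) (z' n) + dist (z' n) (x n) := by
    intro hji n H1 H2
    by_contra hlt
    push Not at hlt
    refine hnr' n (reach_mono (shortcut h hZ (hc' n).1 (hst' n) (hℓρ' n) (hℓ0 n) (hNℓ1 n) hi hji
      (hs0 n) (hs1 n) (hyl' n) (by linarith [hyx' n]) (P4' n) (P4b' n) H1 H2) hlt.le)
  -- limits
  have hK : IsCompact (closedBall d.p S) := isCompact_closedBall d.p S
  have hpa : ∀ n, dist d.p (c n j) ≤ S := fun n => by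
    have h1 := hol_facts h (hc n).1 (hst n) (hℓρ' n) (hℓ0 n) (by linarith [hNℓ1 n]) j hjN
    have h2 := h.dist_le_sz (d.hol (c n) j)
    have h3 : (j : ℝ) * ℓ n ≤ N * ℓ n :=
      mul_le_mul_of_nonneg_right (by exact_mod_cast hjN) (hℓ0 n)
    rw [h1.1] at h2
    linarith [h1.2.1, hNℓ1 n]
  have hpa' : ∀ n, dist d.p (c' n j) ≤ S := fun n => by
    have h1 := hol_facts h (hc' n).1 (hst' n) (hℓρ' n) (hℓ0 n) (by linarith [hNℓ1 n]) j hjN
    have h2 := h.dist_le_sz (d.hol (c' n) j)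
    have h3 : (j : ℝ) * ℓ n ≤ N * ℓ n :=
      mul_le_mul_of_nonneg_right (by exact_mod_cast hjN) (hℓ0 n)
    rw [h1.1] at h2
    linarith [h1.2.1, hNℓ1 n]
  obtain ⟨a, ha, la⟩ := ulim hK (fun n => c n j) (fun n => by
    rw [mem_closedBall']; exact hpa n)
  obtain ⟨a', ha', la'⟩ := ulim hK (fun n => c' n j) (fun n => by
    rw [mem_closedBall']; exact hpa' n)
  obtain ⟨Y, -, lY⟩ := ulim hK y (fun n => by
    rw [mem_closedBall']; linarith [hpy n])
  obtain ⟨Y', -, lY'⟩ := ulim hK y' (fun n => by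
    rw [mem_closedBall']; linarith [hpy' n])
  obtain ⟨X, hX, lX⟩ := ulim hK x (fun n => by
    rw [mem_closedBall']; linarith [hpx n])
  obtain ⟨Z, hZ1, lZ⟩ := ulim hK z (fun n => by
    rw [mem_closedBall']; linarith [hpz n])
  obtain ⟨Z', hZ1', lZ'⟩ := ulim hK z' (fun n => by
    rw [mem_closedBall']; linarith [hpz' n])
  obtain ⟨σ, hσ, lσ⟩ := ulim (isCompact_Icc (a := (0 : ℝ)) (b := 1)) s (fun n =>
    ⟨hs0 n, hs1 n⟩)
  rw [mem_closedBall'] at ha ha' hX hZ1 hZ1'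
  have l0 : Tendsto (fun n : ℕ => 1 / ((n : ℝ) + 1)) (hyperfilter ℕ : Filter ℕ) (𝓝 0) :=
    tendsto_one_div_add_atTop_nhds_zero_nat.mono_left Nat.hyperfilter_le_atTop
  have lℓ : Tendsto ℓ (hyperfilter ℕ : Filter ℕ) (𝓝 (r / N)) := by
    have h1 : Tendsto (fun n : ℕ => (r + 1 / ((n : ℝ) + 1)) / N) (hyperfilter ℕ : Filter ℕ)
        (𝓝 ((r + 0) / N)) := (l0.const_add r).div_const _
    rw [add_zero] at h1
    exact h1.congr (fun n => (hℓdef n).symm)
  have lr : Tendsto (fun n : ℕ => r - 1 / ((n : ℝ) + 1)) (hyperfilter ℕ : Filter ℕ) (𝓝 r) := by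
    simpa using l0.const_sub r
  have lT : Tendsto (fun n => ((i : ℝ) + s n)) (hyperfilter ℕ : Filter ℕ) (𝓝 (i + σ)) :=
    lσ.const_add _
  have lTj : Tendsto (fun n => ((i : ℝ) - j + s n)) (hyperfilter ℕ : Filter ℕ)
      (𝓝 (i - j + σ)) := lσ.const_add _
  refine limit_false h (N := N) (r := r) (ℓ := r / N) (η := η) (s := σ) hr (by field_simp)
    (by positivity) ?_ hη' hi hj hjmin hσ.2 ?_ (a := a) (a' := a') (y := Y) (y' := Y') (x := X)
    (z := Z) (z' := Z') ?_ ha ha' hX hZ1 hZ1' ?_ ?_ ?_ ?_ ?_ ?_ ?_ ?_ ?_ ?_ ?_ ?_ ?_ ?_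
  · rw [mul_div_assoc', div_lt_iff₀ hNr]; nlinarith
  · have h1 : (i : ℝ) + σ ≤ N * (1 - τ) := by
      refine le_of_tendsto' lT (fun n => ?_)
      have := hT n
      rw [div_le_iff₀ hNr] at this
      linarith
    nlinarith
  · intro hj0
    refine tendsto_nhds_unique la (la'.congr (fun n => ?_))
    rw [hj0, (hc n).1, (hc' n).1]
  · exact le_of_tendsto_of_tendsto' (lY.dist lY')
      (((lT.const_sub _).mul lℓ).const_mul 2) P1
  · exact le_of_tendsto_of_tendsto' lr ((lT.mul lℓ).add (lY.dist lX)) P2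
  · exact le_of_tendsto_of_tendsto' lr ((lT.mul lℓ).add (lY'.dist lX)) P2'
  · exact tendsto_nhds_unique ((lY.dist lX).add (lX.dist lY')) ((lY.dist lY').congr
      (fun n => (P3 n).symm))
  · exact tendsto_nhds_unique (lY.dist lZ) (((lY.dist lX).div_const 2).congr
      (fun n => (P4 n).symm))
  · exact tendsto_nhds_unique (lZ.dist lX) (((lY.dist lX).div_const 2).congr
      (fun n => (P4b n).symm))
  · exact tendsto_nhds_unique (lY'.dist lZ') (((lY'.dist lX).div_const 2).congr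
      (fun n => (P4' n).symm))
  · exact tendsto_nhds_unique (lZ'.dist lX) (((lY'.dist lX).div_const 2).congr
      (fun n => (P4b' n).symm))
  · intro hji
    exact le_of_tendsto_of_tendsto' (la.dist lY) (lTj.mul lℓ) (P5 hji)
  · intro hji
    exact le_of_tendsto_of_tendsto' (la'.dist lY') (lTj.mul lℓ) (P5' hji)
  · intro hji H1 H2
    have E1 := ((lT.mul lℓ).add ((lY.dist lX).div_const 2)).eventually_lt_const H1
    have E2 := ((lTj.mul lℓ).add ((lY.dist lX).div_const 2)).eventually_lt_const H2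
    refine le_of_tendsto_of_tendsto lr (((lℓ.const_mul (j : ℝ)).add (la.dist lZ)).add
      (lZ.dist lX)) ?_
    filter_upwards [E1, E2] with n h1 h2
    exact P6 hji n h1 h2
  · intro hji H1 H2
    have E1 := ((lT.mul lℓ).add ((lY'.dist lX).div_const 2)).eventually_lt_const H1
    have E2 := ((lTj.mul lℓ).add ((lY'.dist lX).div_const 2)).eventually_lt_const H2
    refine le_of_tendsto_of_tendsto lr (((lℓ.const_mul (j : ℝ)).add (la'.dist lZ')).add
      (lZ'.dist lX)) ?_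
    filter_upwards [E1, E2] with n h1 h2
    exact P6' hji n h1 h2
  · exact le_of_tendsto' (la.dist la') (fun n => hcl n j hjN)
  · exact le_of_tendsto_of_tendsto' (lY.dist lY') ((lℓ.const_mul 2).const_add η) P7'

lemma stepPath_mono {p : M} {N : ℕ} {L L' : ℝ} {c : ℕ → M} (hc : StepPath p N L c)
    (h : L ≤ L') : StepPath p N L' c :=
  ⟨hc.1, fun i hi => (hc.2 i hi).trans (by gcongr)⟩

end Margin

/-- **Margin lemma (3.2).** -/
theorem margin [ProperSpace M] {S ρ C : ℝ} (h : RollAx d S ρ C) {N : ℕ} (_hN : 0 < N)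
    {r R η τ : ℝ} (hr : 0 < r) (hrR : r ≤ R) (hRS : R + 2 ≤ S) (hN' : 100 * (R + 1) < N * ρ)
    (_hη : 0 < η) (hη' : η ≤ ρ / 4) (hZ : d.Z ρ r) (hτ : 0 < τ) (_hτ1 : τ < 1) :
    ∃ e > 0, e ≤ 1 ∧ ∃ k > 0, ∀ c c' : ℕ → M,
      StepPath d.p N (r + e) c → StepPath d.p N (r + e) c' → c N = c' N →
      (∀ j ≤ N, dist (c j) (c' j) ≤ η) →
      ∀ i < N, ∀ s : ℝ, 0 ≤ s → s ≤ 1 → (i + s) / N ≤ 1 - τ →
      ∀ y y' x, AtSeg (c i) (c (i + 1)) s y → AtSeg (c' i) (c' (i + 1)) s y' → Btw y x y' →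
        d.Reach ρ (r - k) (d.mv (d.mv (d.hol c i) y) x) ∨
        d.Reach ρ (r - k) (d.mv (d.mv (d.hol c' i) y') x) := by
  -- simultaneous constants for the steps `< n`
  have key : ∀ n ≤ N, ∃ e > 0, e ≤ 1 ∧ ∃ k > 0, ∀ c c' : ℕ → M,
      StepPath d.p N (r + e) c → StepPath d.p N (r + e) c' → c N = c' N →
      (∀ j ≤ N, dist (c j) (c' j) ≤ η) →
      ∀ i < n, ∀ s : ℝ, 0 ≤ s → s ≤ 1 → (i + s) / N ≤ 1 - τ →
      ∀ y y' x, AtSeg (c i) (c (i + 1)) s y → AtSeg (c' i) (c' (i + 1)) s y' → Btw y x y' →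
        d.Reach ρ (r - k) (d.mv (d.mv (d.hol c i) y) x) ∨
        d.Reach ρ (r - k) (d.mv (d.mv (d.hol c' i) y') x) := by
    intro n
    induction n with
    | zero => intro _; exact ⟨1, one_pos, le_rfl, 1, one_pos, fun c c' _ _ _ _ i hi => by omega⟩
    | succ n ih =>
      intro hn
      obtain ⟨e1, e10, e11, k1, k10, H1⟩ := ih (by omega)
      obtain ⟨e2, e20, e21, k2, k20, H2⟩ := Margin.margin_fix h hr hrR hRS hN' hη' hZ hτ
        (show n < N from hn)
      refine ⟨min e1 e2, lt_min e10 e20, (min_le_left _ _).trans e11, min k1 k2,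
        lt_min k10 k20, ?_⟩
      intro c c' hc hc' hcN hcl i hi s hs0 hs1 hT y y' x hy hy' hx
      rcases Nat.lt_succ_iff_lt_or_eq.mp hi with hi | rfl
      · have := H1 c c' (Margin.stepPath_mono hc (by gcongr; exact min_le_left _ _))
          (Margin.stepPath_mono hc' (by gcongr; exact min_le_left _ _)) hcN hcl i hi s hs0 hs1 hT
          y y' x hy hy' hx
        have hk : r - k1 ≤ r - min k1 k2 := by linarith [min_le_left k1 k2]
        exact this.imp (fun q => Margin.reach_mono q hk) (fun q => Margin.reach_mono q hk)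
      · have := H2 c c' (Margin.stepPath_mono hc (by gcongr; exact min_le_right _ _))
          (Margin.stepPath_mono hc' (by gcongr; exact min_le_right _ _)) hcN hcl s hs0 hs1 hT
          y y' x hy hy' hx
        have hk : r - k2 ≤ r - min k1 k2 := by linarith [min_le_right k1 k2]
        exact this.imp (fun q => Margin.reach_mono q hk) (fun q => Margin.reach_mono q hk)
  exact key N le_rfl

end Pool.Ambrose
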