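import Pool.Agent.Ambrose.AbsDefs

/-! # Ambrose, part A: basic lemmas -/

open Metric Set

namespace Pool.Ambrose

section metricfacts

variable {M : Type*} [PseudoMetricSpace M]

theorem Btw.symm {x y z : M} (h : Btw x y z) : Btw z y x := by
  unfold Btw at *
  rw [dist_comm z y, dist_comm y x, dist_comm z x]
  linarith

theorem btw_self_left (x y : M) : Btw x x y := by simp [Btw]

theorem btw_self_right (x y : M) : Btw x y y := by simp [Btw]

theorem Btw.dist_left_le {x y z : M} (h : Btw x y z) : dist x y ≤ dist x z := by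
  unfold Btw at h
  have := dist_nonneg (x := y) (y := z)
  linarith

theorem Btw.dist_right_le {x y z : M} (h : Btw x y z) : dist y z ≤ dist x z := by
  unfold Btw at h
  have := dist_nonneg (x := x) (y := y)
  linarith

/-- `x, u, y, z`: if `y` is between `x` and `z` and `u` between `x` and `y`, then `u` is between
`x` and `z`. -/
theorem Btw.trans_left {x u y z : M} (h : Btw x y z) (h' : Btw x u y) : Btw x u z := by
  unfold Btw at *
  have h1 := dist_triangle x u z
  have h2 := dist_triangle u y z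
  linarith

/-- ... and `y` is between `u` and `z`. -/
theorem Btw.trans_left' {x u y z : M} (h : Btw x y z) (h' : Btw x u y) : Btw u y z := by
  unfold Btw at *
  have h1 := dist_triangle x u z
  have h2 := dist_triangle u y z
  linarith

theorem AtSeg.btw {x y z : M} {t : ℝ} (h : AtSeg x y t z) : Btw x z y := by
  unfold AtSeg Btw at *
  rw [h.1, h.2]; ring

theorem atSeg_zero (x y : M) : AtSeg x y 0 x := by simp [AtSeg]

theorem atSeg_one (x y : M) : AtSeg x y 1 y := by simp [AtSeg]

theorem AtSeg.symm {x y z : M} {t : ℝ} (h : AtSeg x y t z) : AtSeg y x (1 - t) z := by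
  unfold AtSeg at *
  rw [dist_comm y z, dist_comm z x, dist_comm y x, h.1, h.2]
  constructor <;> ring

/-- a point between `x` and `y` is at some parameter -/
theorem Btw.atSeg {x y z : M} (h : Btw x z y) :
    ∃ t, 0 ≤ t ∧ t ≤ 1 ∧ AtSeg x y t z := by
  unfold Btw AtSeg at *
  rcases eq_or_ne (dist x y) 0 with h0 | h0
  · refine ⟨0, le_rfl, zero_le_one, ?_, ?_⟩
    · have := dist_nonneg (x := x) (y := z)
      have := dist_nonneg (x := z) (y := y)
      linarith
    · have := dist_nonneg (x := x) (y := z)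
      have := dist_nonneg (x := z) (y := y)
      linarith
  · have hp : 0 < dist x y := lt_of_le_of_ne dist_nonneg (Ne.symm h0)
    refine ⟨dist x z / dist x y, by positivity, ?_, ?_, ?_⟩
    · rw [div_le_one hp]
      have := dist_nonneg (x := z) (y := y)
      linarith
    · field_simp
    · field_simp
      linarith

end metricfacts

variable {M P : Type*} [MetricSpace M] {d : RollData M P} {S ρ C : ℝ}

namespace RollAx

theorem atSeg_unique (h : RollAx d S ρ C) {x y z z' : M} {t : ℝ} (hx : dist d.p x ≤ S)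
    (hy : dist d.p y ≤ S) (hxy : dist x y < ρ) (hz : AtSeg x y t z) (hz' : AtSeg x y t z') :
    z = z' :=
  h.unique x y z z' hx hy hxy hz.btw hz'.btw (by rw [hz.1, hz'.1])

/-- if `u` is at parameter `s`, `v` at parameter `t`, `s ≤ t`, then `u` is between `x` and `v` -/
theorem atSeg_btw (h : RollAx d S ρ C) {x y u v : M} {s t : ℝ} (hx : dist d.p x ≤ S)
    (hy : dist d.p y ≤ S) (hv' : dist d.p v ≤ S)
    (hxy : dist x y < ρ) (hs : 0 ≤ s) (hst : s ≤ t) (ht : t ≤ 1) (hu : AtSeg x y s u)
    (hv : AtSeg x y t v) : Btw x u v ∧ dist u v = (t - s) * dist x y := by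
  have hxv : dist x v < ρ := lt_of_le_of_lt hv.btw.dist_left_le hxy
  rcases eq_or_lt_of_le (hs.trans hst) with h0 | h0
  · have hs0 : s = 0 := le_antisymm (hst.trans h0.ge) hs
    subst hs0
    have ht0 : t = 0 := h0.symm
    subst ht0
    have h1 : dist x u = 0 := by rw [hu.1]; ring
    have h2 : dist x v = 0 := by rw [hv.1]; ring
    have h1' := dist_eq_zero.1 h1
    have h2' := dist_eq_zero.1 h2
    subst h1'; subst h2'
    simp [Btw]
  · obtain ⟨w, hw⟩ := h.exists_atSeg x v hx hv' hxv (s / t) (by positivity)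
      (by rw [div_le_one h0]; exact hst)
    have hxw : dist x w = s * dist x y := by
      rw [hw.1, hv.1]; field_simp
    have hwv : dist w v = (t - s) * dist x y := by
      rw [hw.2, hv.1]; field_simp
    have hb : Btw x w y := hv.btw.trans_left hw.btw
    have : u = w := h.unique x y u w hx hy hxy hu.btw hb (by rw [hu.1, hxw])
    subst this
    exact ⟨hw.btw, hwv⟩

end RollAx

theorem RollAx.dist_p_mv (h : RollAx d S ρ C) {A : P} {b : M} {ℓ : ℝ} (hA : d.sz A ≤ ℓ) :
    dist d.p b ≤ ℓ + dist (d.pr A) b := by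
  have h1 := dist_triangle d.p (d.pr A) b
  have h2 := h.dist_le_sz A
  linarith

namespace RollData.Reach

theorem mono {μ ℓ ℓ' : ℝ} {A : P} (hA : d.Reach μ ℓ A) (hl : ℓ ≤ ℓ') : d.Reach μ ℓ' A := by
  cases hA with
  | base h0 => exact RollData.Reach.base (h0.trans hl)
  | step hB hb hle => exact RollData.Reach.step hB hb (hle.trans hl)

theorem nonneg {μ ℓ : ℝ} {A : P} (hA : d.Reach μ ℓ A) : 0 ≤ ℓ := by
  induction hA with
  | base h0 => exact h0
  | step hB hb hle ih =>
    have := dist_nonneg (x := d.pr ‹P›) (y := ‹M›)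
    linarith

theorem mesh_mono {μ μ' ℓ : ℝ} {A : P} (hA : d.Reach μ ℓ A) (hl : μ ≤ μ') : d.Reach μ' ℓ A := by
  induction hA with
  | base h0 => exact RollData.Reach.base h0
  | step hB hb hle ih => exact RollData.Reach.step ih (hb.trans_le hl) hle

theorem sz_le (h : RollAx d S ρ C) {ℓ : ℝ} {A : P} (hA : d.Reach ρ ℓ A) (hl : ℓ ≤ S) :
    d.sz A ≤ ℓ := by
  induction hA with
  | base h0 => rw [h.sz_A0]; exact h0
  | @step ℓ₁ ℓ₂ A b hB hb hle ih =>
    have hd := dist_nonneg (x := d.pr A) (y := b)
    have h1 := ih (by linarith)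
    have h2 := h.sz_mv A b (by linarith) ((h.dist_p_mv h1).trans (by linarith)) hb
    linarith

/-- one step of length `< ρ`, cut into `n` pieces -/
theorem step_subdiv (h : RollAx d S ρ C) {μ : ℝ} (n : ℕ) (hn : 0 < n) {ℓ : ℝ} {A : P} {b : M}
    (hA : d.Reach μ ℓ A) (hmr : μ ≤ ρ)
    (hb : dist (d.pr A) b < ρ) (hl : ℓ + dist (d.pr A) b ≤ S) (hn' : dist (d.pr A) b / n < μ) :
    d.Reach μ (ℓ + dist (d.pr A) b) (d.mv A b) := by
  have hd := dist_nonneg (x := d.pr A) (y := b)
  have hszA : d.sz A ≤ ℓ := sz_le h (hA.mesh_mono hmr) (by linarith)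
  have hpb : dist d.p b ≤ S := (h.dist_p_mv hszA).trans hl
  have hpa : dist d.p (d.pr A) ≤ S := (h.dist_le_sz A).trans (by linarith)
  have hn0 : (0 : ℝ) < n := by exact_mod_cast hn
  have key : ∀ k : ℕ, k ≤ n → ∀ z, AtSeg (d.pr A) b (k / n) z →
      d.Reach μ (ℓ + dist (d.pr A) z) (d.mv A z) := by
    intro k
    induction k with
    | zero =>
      intro _ z hz
      have hz0 : dist (d.pr A) z = 0 := by rw [hz.1]; simp
      have := dist_eq_zero.1 hz0
      rw [← this, h.mv_self A (by linarith)]
      simpa using hA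
    | succ k ih =>
      intro hk z hz
      have hk' : (k : ℝ) / n ≤ ((k + 1 : ℕ) : ℝ) / n := by
        gcongr
        simp
      have hk1 : ((k + 1 : ℕ) : ℝ) / n ≤ 1 := by
        rw [div_le_one hn0]
        exact_mod_cast hk
      obtain ⟨u, hu⟩ := h.exists_atSeg (d.pr A) b hpa hpb hb (k / n) (by positivity)
        (hk'.trans hk1)
      have hz' : dist d.p z ≤ S := by
        have h1 := hz.btw.dist_left_le
        have h2 := h.dist_p_mv (b := z) hszA
        linarith
      have hu' : dist d.p u ≤ S := by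
        have h1 := hu.btw.dist_left_le
        have h2 := h.dist_p_mv (b := u) hszA
        linarith
      obtain ⟨hb1, hb2⟩ := h.atSeg_btw hpa hpb hz' hb (by positivity) hk' hk1 hu hz
      have hku := ih (by omega) u hu
      have hpr : d.pr (d.mv A u) = u :=
        h.pr_mv A u (by linarith) hu' (lt_of_le_of_lt hu.btw.dist_left_le hb)
      have hstep : dist u z < μ := by
        rw [hb2]
        have : (((k + 1 : ℕ) : ℝ) / n - k / n) * dist (d.pr A) b = dist (d.pr A) b / n := by
          push_cast; field_simp; ring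
        rw [this]; exact hn'
      have hfin : d.Reach μ (ℓ + dist (d.pr A) z) (d.mv (d.mv A u) z) := by
        refine RollData.Reach.step hku (by rw [hpr]; exact hstep) ?_
        rw [hpr]
        unfold Btw at hb1
        linarith
      rwa [h.mv_mv A u z (by linarith) hz' (lt_of_le_of_lt hz.btw.dist_left_le hb) hb1] at hfin
  have := key n le_rfl b (by rw [div_self hn0.ne']; exact atSeg_one _ _)
  exact this

theorem to_mesh (h : RollAx d S ρ C) {μ ℓ : ℝ} (hμ : 0 < μ) (hmr : μ ≤ ρ) {A : P}
    (hA : d.Reach ρ ℓ A) (hl : ℓ ≤ S) : d.Reach μ ℓ A := by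
  induction hA with
  | base h0 => exact RollData.Reach.base h0
  | @step ℓ₁ ℓ₂ A b hB hb hle ih =>
    have hd := dist_nonneg (x := d.pr A) (y := b)
    obtain ⟨n, hn⟩ := exists_nat_gt (dist (d.pr A) b / μ)
    have hn0 : (0 : ℝ) < n := lt_of_le_of_lt (by positivity) hn
    refine (step_subdiv h n (by exact_mod_cast hn0) (ih (by linarith)) hmr hb (by linarith)
      ?_).mono hle
    rw [div_lt_iff₀ hn0]
    rw [div_lt_iff₀ hμ] at hn
    linarith

end RollData.Reach

namespace RollData

/-- flatness at points with slack -/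
theorem flat (h : RollAx d S ρ C) {r k : ℝ} (hr : r ≤ S) (hZ : d.Z ρ r) {A : P}
    (hA : d.Reach ρ (r - k) A) {y z : M}
    (hy : dist (d.pr A) y < k) (hz : dist (d.pr A) z < k)
    (hyρ : dist (d.pr A) y < ρ / 2) (hzρ : dist (d.pr A) z < ρ / 2) :
    d.mv (d.mv A y) z = d.mv A z := by
  have hρ := h.rho_pos
  have hd1 := dist_nonneg (x := d.pr A) (y := y)
  have hsz : d.sz A ≤ r - k := hA.sz_le h (by linarith)
  have hyz : dist y z < ρ := by
    have := dist_triangle y (d.pr A) z
    rw [dist_comm y (d.pr A)] at this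
    linarith
  have hpy : dist d.p y ≤ S := (h.dist_p_mv hsz).trans (by linarith)
  have hpz : dist d.p z ≤ S := (h.dist_p_mv hsz).trans (by linarith)
  have hpa : dist d.p (d.pr A) ≤ S := (h.dist_le_sz A).trans (by linarith)
  refine h.tri0 A y z (by linarith) hpy hpz (by linarith) (by linarith) hyz ?_
  intro y' x hy' hx
  have h1 : dist (d.pr A) y' ≤ max (dist (d.pr A) y) (dist (d.pr A) z) :=
    h.conv (d.pr A) y z y' hpa hpy hpz (by linarith) (by linarith) hyz hy'
  have h2 : dist (d.pr A) x ≤ dist (d.pr A) y' := hx.dist_left_le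
  have h3 : dist (d.pr A) x < k := lt_of_le_of_lt (h2.trans h1) (max_lt hy hz)
  have h4 : dist (d.pr A) x < ρ := by
    refine lt_of_le_of_lt (h2.trans h1) (max_lt ?_ ?_) <;> linarith
  exact hZ (r - k + dist (d.pr A) x) _ (by linarith) (RollData.Reach.step hA h4 le_rfl)

/-- general flat triangle: `D` vanishes on a ball around `pr B` -/
theorem fan_step (h : RollAx d S ρ C) {B : P} {t : ℝ} (hB : d.sz B + t ≤ S) (ht0 : 0 ≤ t)
    (ht : t < ρ / 2)
    (hD : ∀ x, dist (d.pr B) x ≤ t → d.D (d.mv B x) = 0) {y z : M}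
    (hy : dist (d.pr B) y ≤ t) (hz : dist (d.pr B) z ≤ t) :
    d.mv (d.mv B y) z = d.mv B z := by
  have hρ := h.rho_pos
  have hyz : dist y z < ρ := by
    have := dist_triangle y (d.pr B) z
    rw [dist_comm y (d.pr B)] at this
    linarith
  have hpy : dist d.p y ≤ S := (h.dist_p_mv le_rfl).trans (by linarith)
  have hpz : dist d.p z ≤ S := (h.dist_p_mv le_rfl).trans (by linarith)
  have hpa : dist d.p (d.pr B) ≤ S := (h.dist_le_sz B).trans (by linarith)
  refine h.tri0 B y z (by linarith) hpy hpz (by linarith) (by linarith) hyz ?_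
  intro y' x hy' hx
  have h1 : dist (d.pr B) y' ≤ max (dist (d.pr B) y) (dist (d.pr B) z) :=
    h.conv (d.pr B) y z y' hpa hpy hpz (by linarith) (by linarith) hyz hy'
  exact hD x ((hx.dist_left_le.trans h1).trans (max_le hy hz))

end RollData

end Pool.Ambrose
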