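import Pool.Agent.Ambrose.AbsKey

/-! # Ambrose, part A: components of the path space contain rays (3.5) -/

open Metric Set Filter Topology

namespace Pool.Ambrose

variable {M P : Type*} [MetricSpace M] {d : RollData M P} {S ρ C : ℝ}

/-- extension of a finite list of vertices to `ℕ` -/
def xt {N : ℕ} (c : Fin (N + 1) → M) : ℕ → M := fun j => c ⟨min j N, by omega⟩

omit [MetricSpace M] in
theorem xt_apply {N : ℕ} (c : Fin (N + 1) → M) {j : ℕ} (hj : j ≤ N) :
    xt c j = c ⟨j, by omega⟩ := by
  unfold xt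
  congr 1
  simp [hj]

theorem continuous_xt {N : ℕ} (j : ℕ) : Continuous (fun c : Fin (N + 1) → M => xt c j) :=
  continuous_apply _

/-- restriction -/
def rs {N : ℕ} (c : ℕ → M) : Fin (N + 1) → M := fun j => c j

omit [MetricSpace M] in
theorem xt_rs {N : ℕ} (c : ℕ → M) {j : ℕ} (hj : j ≤ N) : xt (rs (N := N) c) j = c j := by
  rw [xt_apply _ hj]; rfl

/-- path space with fixed end point -/
def PathSet (p : M) (N : ℕ) (L : ℝ) (w : M) : Set (Fin (N + 1) → M) :=
  {c | StepPath p N L (xt c) ∧ xt c N = w}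

theorem isClosed_stepPath (p : M) (N : ℕ) (L : ℝ) :
    IsClosed {c : Fin (N + 1) → M | StepPath p N L (xt c)} := by
  have : {c : Fin (N + 1) → M | StepPath p N L (xt c)} =
      {c | xt c 0 = p} ∩ ⋂ i ∈ Finset.range N, {c | dist (xt c i) (xt c (i + 1)) ≤ L / N} := by
    ext c
    simp [StepPath]
  rw [this]
  refine IsClosed.inter (isClosed_eq (continuous_xt 0) continuous_const) ?_
  exact isClosed_biInter (fun i _ => isClosed_le ((continuous_xt i).dist (continuous_xt (i + 1)))
    continuous_const)

theorem isClosed_pathSet (p : M) (N : ℕ) (L : ℝ) (w : M) : IsClosed (PathSet p N L w) :=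
  (isClosed_stepPath p N L).inter (isClosed_eq (continuous_xt N) continuous_const)

theorem stepPath_dist {p : M} {N : ℕ} {L : ℝ} {c : ℕ → M} (hc : StepPath p N L c) {j : ℕ}
    (hj : j ≤ N) : dist p (c j) ≤ j * (L / N) := by
  induction j with
  | zero => rw [hc.1]; simp
  | succ j ih =>
    have h1 := ih (by omega)
    have h2 := hc.2 j (by omega)
    have h3 := dist_triangle p (c j) (c (j + 1))
    push_cast
    linarith

theorem isCompact_stepPath [ProperSpace M] (p : M) (N : ℕ) {L : ℝ} (hL : 0 ≤ L) :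
    IsCompact {c : Fin (N + 1) → M | StepPath p N L (xt c)} := by
  have hcpt : IsCompact (Set.univ.pi fun _ : Fin (N + 1) => closedBall p (N * (L / N))) :=
    isCompact_univ_pi (fun _ => isCompact_closedBall _ _)
  refine hcpt.of_isClosed_subset (isClosed_stepPath p N L) ?_
  intro c hc j _
  rw [mem_closedBall, dist_comm]
  have hj : (j : ℕ) ≤ N := Nat.lt_succ_iff.1 j.2
  have h1 := stepPath_dist hc hj
  rw [xt_apply c hj] at h1
  refine h1.trans ?_
  have : (j : ℝ) ≤ N := by exact_mod_cast hj
  gcongr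

theorem isCompact_pathSet [ProperSpace M] (p : M) (N : ℕ) {L : ℝ} (hL : 0 ≤ L) (w : M) :
    IsCompact (PathSet p N L w) :=
  (isCompact_stepPath p N hL).inter_right (isClosed_eq (continuous_xt N) continuous_const)

/-- energy -/
noncomputable def energy {N : ℕ} (c : Fin (N + 1) → M) : ℝ :=
  ∑ i ∈ Finset.range N, dist (xt c i) (xt c (i + 1)) ^ 2

theorem continuous_energy {N : ℕ} : Continuous (energy (M := M) (N := N)) := by
  unfold energy
  exact continuous_finsetSum _ (fun i _ =>
    ((continuous_xt i).dist (continuous_xt (i + 1))).pow 2)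

/-- the segment from `y` to `m` is connected -/
theorem exists_seg_path (h : RollAx d S ρ C) {y m : M} (hy : dist d.p y ≤ S - 1)
    (hm : dist d.p m ≤ S - 1) (hym : dist y m < ρ) :
    ∃ γ : ℝ → M, ContinuousOn γ (Icc 0 1) ∧ γ 0 = y ∧ γ 1 = m ∧
      ∀ t ∈ Icc (0 : ℝ) 1, AtSeg y m t (γ t) := by
  classical
  have hρ := h.rho_pos
  have hρ1 := h.rho_le_one
  have hex : ∀ t : ℝ, ∃ z, t ∈ Icc (0 : ℝ) 1 → AtSeg y m t z := by
    intro t
    by_cases ht : t ∈ Icc (0 : ℝ) 1
    · obtain ⟨z, hz⟩ := h.exists_atSeg y m (by linarith) (by linarith) hym t ht.1 ht.2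
      exact ⟨z, fun _ => hz⟩
    · exact ⟨y, fun h => absurd h ht⟩
  choose γ hγ using hex
  have hpγ : ∀ t ∈ Icc (0 : ℝ) 1, dist d.p (γ t) ≤ S := by
    intro t ht
    have h1 := dist_triangle d.p y (γ t)
    have h2 := (hγ t ht).btw.dist_left_le
    linarith
  have hdist : ∀ s ∈ Icc (0 : ℝ) 1, ∀ t ∈ Icc (0 : ℝ) 1, s ≤ t →
      dist (γ s) (γ t) = (t - s) * dist y m := by
    intro s hs t ht hst
    exact (h.atSeg_btw (by linarith) (by linarith) (hpγ t ht) hym hs.1 hst ht.2 (hγ s hs)
      (hγ t ht)).2
  have hlip : ∀ s ∈ Icc (0 : ℝ) 1, ∀ t ∈ Icc (0 : ℝ) 1,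
      dist (γ s) (γ t) ≤ 1 * dist s t := by
    intro s hs t ht
    have hd := dist_nonneg (x := y) (y := m)
    rcases le_total s t with hst | hst
    · rw [hdist s hs t ht hst, Real.dist_eq, abs_sub_comm, abs_of_nonneg (by linarith)]
      nlinarith
    · rw [dist_comm, hdist t ht s hs hst, Real.dist_eq, abs_of_nonneg (by linarith)]
      nlinarith
  have hcont : ContinuousOn γ (Icc 0 1) := by
    have : LipschitzOnWith 1 γ (Icc 0 1) := by
      refine LipschitzOnWith.of_dist_le_mul ?_
      intro s hs t ht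
      simpa using hlip s hs t ht
    exact this.continuousOn
  refine ⟨γ, hcont, ?_, ?_, fun t ht => hγ t ht⟩
  · have h0 := hγ 0 ⟨le_rfl, zero_le_one⟩
    have : dist y (γ 0) = 0 := by rw [h0.1]; simp
    exact (dist_eq_zero.1 this).symm
  · have h1 := hγ 1 ⟨zero_le_one, le_rfl⟩
    have : dist (γ 1) m = 0 := by rw [h1.2]; simp
    exact dist_eq_zero.1 this

/-- the minimiser of the energy on a component is a discrete geodesic -/
theorem exists_ray [ProperSpace M] (h : RollAx d S ρ C) {N : ℕ} (hN : 0 < N) {L : ℝ}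
    (hL0 : 0 ≤ L) (hLS : L ≤ S - 21 / 10) (hLN : L / N ≤ ρ / 100) {w : M} {c₀ : Fin (N + 1) → M}
    (hc₀ : c₀ ∈ PathSet d.p N L w) :
    ∃ c ∈ connectedComponentIn (PathSet d.p N L w) c₀, c ∈ PathSet d.p N L w ∧
      ∀ i, i + 2 ≤ N → dist (xt c i) (xt c (i + 1)) = dist (xt c (i + 1)) (xt c (i + 2)) ∧
        dist (xt c i) (xt c (i + 2)) = 2 * dist (xt c i) (xt c (i + 1)) := by
  classical
  have hρ := h.rho_pos
  have hρ1 := h.rho_le_one
  have hN0 : (0 : ℝ) < N := by exact_mod_cast hN
  have hNL : (N : ℝ) * (L / N) = L := by field_simp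
  have hsub : connectedComponentIn (PathSet d.p N L w) c₀ ⊆ PathSet d.p N L w :=
    connectedComponentIn_subset _ _
  have hclosed : IsClosed (connectedComponentIn (PathSet d.p N L w) c₀) := by
    refine isClosed_of_closure_subset ?_
    refine (isPreconnected_connectedComponentIn.closure).subset_connectedComponentIn
      (subset_closure (mem_connectedComponentIn hc₀)) ?_
    exact closure_minimal hsub (isClosed_pathSet _ _ _ _)
  have hcompact : IsCompact (connectedComponentIn (PathSet d.p N L w) c₀) :=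
    (isCompact_pathSet d.p N hL0 w).of_isClosed_subset hclosed hsub
  obtain ⟨c, hcK, hmin⟩ := hcompact.exists_isMinOn ⟨c₀, mem_connectedComponentIn hc₀⟩
    continuous_energy.continuousOn
  refine ⟨c, hcK, hsub hcK, ?_⟩
  intro i hi
  have hcP := hsub hcK
  have hvert : ∀ j ≤ N, dist d.p (xt c j) ≤ S - 21 / 10 := by
    intro j hj
    refine (stepPath_dist hcP.1 hj).trans (le_trans ?_ hLS)
    have : (j : ℝ) ≤ N := by exact_mod_cast hj
    calc (j : ℝ) * (L / N) ≤ N * (L / N) := by gcongr
      _ = L := hNL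
  set x := xt c i with hx
  set y := xt c (i + 1) with hy
  set z := xt c (i + 2) with hz
  have hpx := hvert i (by omega)
  have hpy := hvert (i + 1) (by omega)
  have hpz := hvert (i + 2) (by omega)
  have hxy : dist x y ≤ L / N := hcP.1.2 i (by omega)
  have hyz : dist y z ≤ L / N := hcP.1.2 (i + 1) (by omega)
  have hxz : dist x z ≤ dist x y + dist y z := dist_triangle _ _ _
  obtain ⟨m, hm⟩ := h.exists_atSeg x z (by linarith) (by linarith) (by linarith) (1 / 2)
    (by norm_num) (by norm_num)
  have hxm : dist x m = dist x z / 2 := by rw [hm.1]; ring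
  have hmz : dist m z = dist x z / 2 := by rw [hm.2]; ring
  have hpm : dist d.p m ≤ S - 1 := by
    have := dist_triangle d.p x m
    linarith
  have hym : dist y m < ρ := by
    have := dist_triangle y x m
    rw [dist_comm y x] at this
    linarith
  obtain ⟨γ, hγc, hγ0, hγ1, hγ⟩ := exists_seg_path h (by linarith) hpm hym
  -- the deformation
  let g : ℝ → (Fin (N + 1) → M) := fun t => Function.update c ⟨i + 1, by omega⟩ (γ t)
  have hgc : ContinuousOn g (Icc 0 1) := by
    rw [continuousOn_pi]
    intro j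
    by_cases hj : j = ⟨i + 1, by omega⟩
    · subst hj
      simpa [g] using hγc
    · have : (fun t => g t j) = fun _ => c j := by
        funext t
        simp [g, Function.update_of_ne hj]
      rw [this]
      exact continuousOn_const
  have hgx : ∀ t, ∀ j ≤ N, j ≠ i + 1 → xt (g t) j = xt c j := by
    intro t j hj hji
    rw [xt_apply _ hj, xt_apply _ hj]
    simp only [g]
    rw [Function.update_of_ne]
    intro h1
    exact hji (by simpa using congrArg Fin.val h1)
  have hgy : ∀ t, xt (g t) (i + 1) = γ t := by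
    intro t
    rw [xt_apply _ (by omega : i + 1 ≤ N)]
    simp [g]
  have hgP : ∀ t ∈ Icc (0 : ℝ) 1, g t ∈ PathSet d.p N L w := by
    intro t ht
    have hb := (hγ t ht).btw
    have h1 : dist x (γ t) ≤ L / N := by
      refine (h.conv x y m (γ t) (by linarith) (by linarith) (by linarith) (by linarith)
        (by linarith) hym hb).trans (max_le hxy (by linarith))
    have h2 : dist (γ t) z ≤ L / N := by
      rw [dist_comm]
      refine (h.conv z y m (γ t) (by linarith) (by linarith) (by linarith)
        (by rw [dist_comm]; linarith)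
        (by rw [dist_comm]; linarith) hym hb).trans
        (max_le (by rw [dist_comm]; exact hyz) (by rw [dist_comm]; linarith))
    refine ⟨⟨?_, ?_⟩, ?_⟩
    · rw [hgx t 0 (Nat.zero_le _) (by omega)]; exact hcP.1.1
    · intro j hj
      rcases eq_or_ne j (i + 1) with h3 | h3
      · subst h3
        rw [hgy, hgx t (i + 1 + 1) (by omega) (by omega)]
        exact h2
      · rcases eq_or_ne j i with h4 | h4
        · subst h4
          rw [hgy, hgx t _ (by omega) h3]
          exact h1
        · rw [hgx t j (by omega) h3, hgx t (j + 1) (by omega) (by omega)]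
          exact hcP.1.2 j hj
    · rw [hgx t N le_rfl (by omega)]; exact hcP.2
  have hg0 : g 0 = c := by
    funext j
    by_cases hj : j = ⟨i + 1, by omega⟩
    · subst hj
      simp only [g, Function.update_self, hγ0, hy]
      rw [xt_apply _ (by omega : i + 1 ≤ N)]
    · simp [g, Function.update_of_ne hj]
  have hgK : g 1 ∈ connectedComponentIn (PathSet d.p N L w) c₀ := by
    have hcc : connectedComponentIn (PathSet d.p N L w) c₀ =
        connectedComponentIn (PathSet d.p N L w) c := connectedComponentIn_eq hcK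
    rw [hcc]
    have himg : IsPreconnected (g '' Icc 0 1) := isPreconnected_Icc.image g hgc
    refine himg.subset_connectedComponentIn ?_ ?_ ⟨1, ⟨zero_le_one, le_rfl⟩, rfl⟩
    · exact ⟨0, ⟨le_rfl, zero_le_one⟩, hg0⟩
    · rintro _ ⟨t, ht, rfl⟩
      exact hgP t ht
  have hEle : energy c ≤ energy (g 1) := hmin hgK
  have hdiff : energy (g 1) - energy c =
      (dist x m ^ 2 + dist m z ^ 2) - (dist x y ^ 2 + dist y z ^ 2) := by
    unfold energy
    rw [← Finset.sum_sub_distrib]
    have hss : ∑ j ∈ Finset.range N, (dist (xt (g 1) j) (xt (g 1) (j + 1)) ^ 2 -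
        dist (xt c j) (xt c (j + 1)) ^ 2) =
        ∑ j ∈ ({i, i + 1} : Finset ℕ), (dist (xt (g 1) j) (xt (g 1) (j + 1)) ^ 2 -
        dist (xt c j) (xt c (j + 1)) ^ 2) := by
      symm
      refine Finset.sum_subset ?_ ?_
      · intro j hj
        simp only [Finset.mem_insert, Finset.mem_singleton] at hj
        rw [Finset.mem_range]
        omega
      · intro j hj hj'
        rw [Finset.mem_range] at hj
        simp only [Finset.mem_insert, Finset.mem_singleton, not_or] at hj'
        rw [hgx 1 j (by omega) hj'.2, hgx 1 (j + 1) (by omega) (by omega), sub_self]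
    rw [hss, Finset.sum_pair (by omega)]
    rw [hgy, hgx 1 i (by omega) (by omega), hgx 1 (i + 1 + 1) (by omega) (by omega), hγ1]
    simp only [← hx, ← hy]
    have : xt c (i + 1 + 1) = z := rfl
    rw [this]
    ring
  have hfin : dist x y ^ 2 + dist y z ^ 2 ≤ dist x m ^ 2 + dist m z ^ 2 := by linarith
  rw [hxm, hmz] at hfin
  have hxz0 := dist_nonneg (x := x) (y := z)
  have hxy0 := dist_nonneg (x := x) (y := y)
  have hyz0 := dist_nonneg (x := y) (y := z)
  have hsq : dist x z ^ 2 ≤ (dist x y + dist y z) ^ 2 := by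
    gcongr
  have heq : dist x y = dist y z := by
    have : (dist x y - dist y z) ^ 2 ≤ 0 := by nlinarith
    have h0 := pow_eq_zero_iff (two_ne_zero) |>.1 (le_antisymm this (sq_nonneg _))
    linarith
  refine ⟨heq, ?_⟩
  have h1 : (2 * dist x y) ^ 2 ≤ dist x z ^ 2 := by
    rw [← heq] at hfin
    nlinarith
  have h2 : 2 * dist x y ≤ dist x z := by
    exact le_of_sq_le_sq h1 hxz0
  linarith

end Pool.Ambrose
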