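import Mathlib

/-!
# Ambrose, part A: abstract rolling data

`M` is the metric space of the first manifold, `P` the total space, `π : P → M`,
`mv A b` = end point of the lift from `A` of the short segment `[π A, b]`.
All axioms are only required in a bounded region (`S` is the size bound).
-/

open Metric Set

namespace Pool.Ambrose

/-- `y` lies between `x` and `z`. -/
def Btw {M : Type*} [PseudoMetricSpace M] (x y z : M) : Prop :=
  dist x y + dist y z = dist x z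

/-- `z` is the point at parameter `t` on the segment from `x` to `y`. -/
def AtSeg {M : Type*} [PseudoMetricSpace M] (x y : M) (t : ℝ) (z : M) : Prop :=
  dist x z = t * dist x y ∧ dist z y = (1 - t) * dist x y

/-- The raw data. -/
structure RollData (M P : Type*) [MetricSpace M] where
  /-- projection -/
  pr : P → M
  /-- lift of short segments -/
  mv : P → M → P
  /-- mismatch -/
  D : P → ℝ
  /-- a size function on `P`: region in which the uniform estimates hold -/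
  sz : P → ℝ
  /-- base point -/
  p : M
  /-- base element -/
  A0 : P

/-- The axioms, with uniform constants `ρ`, `C` in the region of size `S`. -/
structure RollAx {M P : Type*} [MetricSpace M] (d : RollData M P) (S ρ C : ℝ) : Prop where
  rho_pos : 0 < ρ
  rho_le_one : ρ ≤ 1
  C_nonneg : 0 ≤ C
  pr_A0 : d.pr d.A0 = d.p
  sz_A0 : d.sz d.A0 = 0
  /-- size controls the distance to the base point -/
  dist_le_sz : ∀ A, dist d.p (d.pr A) ≤ d.sz A
  /-- (U1) existence of points on segments -/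
  exists_atSeg : ∀ x y, dist d.p x ≤ S → dist d.p y ≤ S → dist x y < ρ →
    ∀ t, 0 ≤ t → t ≤ 1 → ∃ z, AtSeg x y t z
  /-- (U2) uniqueness of points on segments -/
  unique : ∀ x y z z', dist d.p x ≤ S → dist d.p y ≤ S → dist x y < ρ →
    Btw x z y → Btw x z' y → dist x z = dist x z' → z = z'
  /-- (Conv) convexity -/
  conv : ∀ a b c z, dist d.p a ≤ S → dist d.p b ≤ S → dist d.p c ≤ S →
    dist a b < ρ → dist a c < ρ → dist b c < ρ → Btw b z c →
    dist a z ≤ max (dist a b) (dist a c)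
  /-- (Ext) extension of geodesics -/
  ext : ∀ x y z u v, dist d.p x ≤ S → dist d.p y ≤ S → dist d.p z ≤ S →
    dist x y + dist y z < ρ → Btw x u y → Btw y v z → u ≠ y → v ≠ y → Btw u y v → Btw x y z
  pr_mv : ∀ A b, d.sz A ≤ S → dist d.p b ≤ S → dist (d.pr A) b < ρ → d.pr (d.mv A b) = b
  sz_mv : ∀ A b, d.sz A ≤ S → dist d.p b ≤ S → dist (d.pr A) b < ρ →
    d.sz (d.mv A b) ≤ d.sz A + dist (d.pr A) b
  mv_self : ∀ A, d.sz A ≤ S → d.mv A (d.pr A) = A
  /-- additivity along a segment -/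
  mv_mv : ∀ A x b, d.sz A ≤ S → dist d.p b ≤ S → dist (d.pr A) b < ρ → Btw (d.pr A) x b →
    d.mv (d.mv A x) b = d.mv A b
  /-- reversal -/
  mv_rev : ∀ A b, d.sz A ≤ S → dist d.p b ≤ S → dist (d.pr A) b < ρ →
    d.mv (d.mv A b) (d.pr A) = A
  /-- the triangle estimate -/
  tri : ∀ A m w t δ, d.sz A ≤ S → dist d.p m ≤ S → dist d.p w ≤ S → t < ρ →
    dist (d.pr A) m ≤ t → dist (d.pr A) w ≤ t → dist m w ≤ t → 0 ≤ δ →
    (∀ y x, Btw m y w → Btw (d.pr A) x y → d.D (d.mv A x) ≤ δ) →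
    |d.D (d.mv (d.mv A m) w) - d.D (d.mv A w)| ≤ C * t * δ
  /-- flat triangles -/
  tri0 : ∀ A m w, d.sz A ≤ S → dist d.p m ≤ S → dist d.p w ≤ S →
    dist (d.pr A) m < ρ → dist (d.pr A) w < ρ → dist m w < ρ →
    (∀ y x, Btw m y w → Btw (d.pr A) x y → d.D (d.mv A x) = 0) →
    d.mv (d.mv A m) w = d.mv A w
  D_nonneg : ∀ A, 0 ≤ d.D A
  D_bdd : ∃ B, ∀ A, d.sz A ≤ S → d.D A ≤ B

namespace RollData

variable {M P : Type*} [MetricSpace M] (d : RollData M P)

/-- holonomy along the vertices `c 1, c 2, ...` starting from `A0` -/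
def hol (c : ℕ → M) : ℕ → P
  | 0 => d.A0
  | i + 1 => d.mv (hol c i) (c (i + 1))

/-- rays: equally spaced lists which are locally geodesic have mismatch zero -/
def Rays (S ρ : ℝ) : Prop :=
  ∀ (c : ℕ → M) (N : ℕ) (l : ℝ), c 0 = d.p → l < ρ / 2 → N * l ≤ S →
    (∀ i < N, dist (c i) (c (i + 1)) = l) →
    (∀ i, i + 2 ≤ N → dist (c i) (c (i + 2)) = 2 * l) → d.D (d.hol c N) = 0

/-- `Reach μ ℓ A`: `A` is the holonomy of a list of mesh `< μ` and length `≤ ℓ`. -/
inductive Reach (μ : ℝ) : ℝ → P → Prop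
  | base {ℓ : ℝ} : 0 ≤ ℓ → Reach μ ℓ d.A0
  | step {ℓ ℓ' : ℝ} {A : P} {b : M} : Reach μ ℓ A → dist (d.pr A) b < μ →
      ℓ + dist (d.pr A) b ≤ ℓ' → Reach μ ℓ' (d.mv A b)

/-- the induction hypothesis -/
def Z (μ r : ℝ) : Prop := ∀ ℓ A, ℓ < r → d.Reach μ ℓ A → d.D A = 0

end RollData

/-- `c` is an `N`-step path from `p` with steps `≤ L / N`. -/
def StepPath {M : Type*} [MetricSpace M] (p : M) (N : ℕ) (L : ℝ) (c : ℕ → M) : Prop :=
  c 0 = p ∧ ∀ i < N, dist (c i) (c (i + 1)) ≤ L / N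

/-!
Targets of part A (`d : RollData M P`, `h : RollAx d S ρ C`, `[ProperSpace M]`):

* `reach_mesh` : `0 < μ → d.Reach ρ ℓ A → ℓ ≤ S - 1 → d.Reach μ ℓ A`   (helper45)
* `flat` : `d.Z ρ r → d.Reach ρ (r - k) A → ... → d.mv (d.mv A y) z = d.mv A z` (helper45)
* `lemmaR` (helper45)
* `margin` (helper38):
    theorem margin [ProperSpace M] {S ρ C : ℝ} (h : RollAx d S ρ C) {N : ℕ} (hN : 0 < N)
      {r R η τ : ℝ} (hr : 0 < r) (hrR : r ≤ R) (hRS : R + 2 ≤ S) (hN' : 100 * (R + 1) < N * ρ)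
      (hη : 0 < η) (hη' : η ≤ ρ / 4) (hZ : d.Z ρ r) (hτ : 0 < τ) (hτ1 : τ < 1) :
      ∃ e > 0, e ≤ 1 ∧ ∃ k > 0, ∀ c c' : ℕ → M,
        StepPath d.p N (r + e) c → StepPath d.p N (r + e) c' → c N = c' N →
        (∀ j ≤ N, dist (c j) (c' j) ≤ η) →
        ∀ i < N, ∀ s : ℝ, 0 ≤ s → s ≤ 1 → (i + s) / N ≤ 1 - τ →
        ∀ y y' x, AtSeg (c i) (c (i + 1)) s y → AtSeg (c' i) (c' (i + 1)) s y' → Btw y x y' →
          d.Reach ρ (r - k) (d.mv (d.mv (d.hol c i) y) x) ∨
          d.Reach ρ (r - k) (d.mv (d.mv (d.hol c' i) y') x)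
* `exactness`, `key`, `chain`, `theoremA` (helper45):
    theorem theoremA [ProperSpace M] (h : RollAx d S ρ C) (hrays : d.Rays S ρ) :
      ∀ r ≤ S - 2, d.Z ρ r
-/

end Pool.Ambrose
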