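import Pool.Agent.Ambrose.AbsLemmaR

/-! # Ambrose, part A: exactness (3.3) -/

open Metric Set Filter Topology

namespace Pool.Ambrose

variable {M P : Type*} [MetricSpace M] {d : RollData M P} {S ρ C : ℝ}

/-- bounded sequences converge along ultrafilters -/
theorem exists_lim_ultra [ProperSpace M] {ι : Type*} (U : Ultrafilter ι) (p : M) (B : ℝ)
    (f : ι → M) (hf : ∀ n, dist p (f n) ≤ B) : ∃ x, Tendsto f U (𝓝 x) := by
  have hc : IsCompact (closedBall p B) := isCompact_closedBall p B
  obtain ⟨x, -, hx⟩ := hc.ultrafilter_le_nhds (U.map f) (by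
    rw [Ultrafilter.coe_map, Filter.le_principal_iff, Filter.mem_map]
    refine Filter.univ_mem' (fun n => ?_)
    show f n ∈ closedBall p B
    rw [mem_closedBall, dist_comm]
    exact hf n)
  exact ⟨x, hx⟩

theorem exists_lim_ultra_real {ι : Type*} (U : Ultrafilter ι) {a b : ℝ}
    (f : ι → ℝ) (hf : ∀ n, a ≤ f n ∧ f n ≤ b) : ∃ x, a ≤ x ∧ x ≤ b ∧ Tendsto f U (𝓝 x) := by
  have hc : IsCompact (Icc a b) := isCompact_Icc
  obtain ⟨x, hx', hx⟩ := hc.ultrafilter_le_nhds (U.map f) (by
    rw [Ultrafilter.coe_map, Filter.le_principal_iff, Filter.mem_map]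
    exact Filter.univ_mem' (fun n => hf n))
  exact ⟨x, hx'.1, hx'.2, hx⟩

/-- uniform continuity of short segments -/
theorem seg_uc [ProperSpace M] (h : RollAx d S ρ C) {ρ₁ κ : ℝ} (hρ₁ : ρ₁ < ρ) (hκ : 0 < κ) :
    ∃ ε > 0, ∀ a a' b b' : M, dist d.p a ≤ S → dist d.p a' ≤ S → dist a a' ≤ ρ₁ →
      dist a b ≤ ε → dist a' b' ≤ ε → ∀ t : ℝ, 0 ≤ t → t ≤ 1 → ∀ x y, AtSeg a a' t x →
      AtSeg b b' t y → dist x y < κ := by
  by_contra hcon
  push Not at hcon
  choose a a' b b' ha ha' haa hab hab' t ht0 ht1 x y hx hy hxy using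
    fun n : ℕ => hcon (1 / ((n : ℝ) + 1)) (by positivity)
  have hpos : ∀ n : ℕ, 1 / ((n : ℝ) + 1) ≤ 1 := by
    intro n
    rw [div_le_one (by positivity)]
    have : (0 : ℝ) ≤ n := Nat.cast_nonneg n
    linarith
  let U : Ultrafilter ℕ := hyperfilter ℕ
  have hU : (U : Filter ℕ) ≤ atTop := by
    rw [← Nat.cofinite_eq_atTop]; exact hyperfilter_le_cofinite
  have h0 : Tendsto (fun n : ℕ => 1 / ((n : ℝ) + 1)) U (𝓝 0) :=
    tendsto_one_div_add_atTop_nhds_zero_nat.mono_left hU
  obtain ⟨a₀, ha₀⟩ := exists_lim_ultra U d.p S a ha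
  obtain ⟨a₁, ha₁⟩ := exists_lim_ultra U d.p S a' ha'
  obtain ⟨b₀, hb₀⟩ := exists_lim_ultra U d.p (S + 1) b (fun n => by
    have h1 := dist_triangle d.p (a n) (b n)
    have h2 := ha n
    have h3 := hab n
    have h4 := hpos n
    linarith)
  obtain ⟨b₁, hb₁⟩ := exists_lim_ultra U d.p (S + 1) b' (fun n => by
    have h1 := dist_triangle d.p (a' n) (b' n)
    have h2 := ha' n
    have h3 := hab' n
    have h4 := hpos n
    linarith)
  have hxle : ∀ n, dist (a n) (x n) ≤ ρ₁ := fun n => (hx n).btw.dist_left_le |>.trans (haa n)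
  obtain ⟨x₀, hx₀⟩ := exists_lim_ultra U d.p (S + ρ₁) x (fun n => by
    have h1 := dist_triangle d.p (a n) (x n)
    have h2 := ha n
    have h3 := hxle n
    linarith)
  obtain ⟨y₀, hy₀⟩ := exists_lim_ultra U d.p (S + 1 + (ρ₁ + 2)) y (fun n => by
    have h1 := dist_triangle d.p (b n) (y n)
    have h2 := ha n
    have h3 := hab n
    have h4 := hpos n
    have h5 := (hy n).btw.dist_left_le
    have h6 := dist_triangle4 (b n) (a n) (a' n) (b' n)
    have h7 := hab' n
    have h8 := haa n
    have h9 := dist_triangle d.p (a n) (b n)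
    rw [dist_comm (b n) (a n)] at h6
    linarith)
  obtain ⟨t₀, ht₀0, ht₀1, ht₀⟩ := exists_lim_ultra_real U t (fun n => ⟨ht0 n, ht1 n⟩)
  have hz0 : a₀ = b₀ := by
    have h1 : Tendsto (fun n => dist (a n) (b n)) U (𝓝 (dist a₀ b₀)) := ha₀.dist hb₀
    have h2 : Tendsto (fun n => dist (a n) (b n)) U (𝓝 0) :=
      squeeze_zero (fun _ => dist_nonneg) hab h0
    exact dist_eq_zero.1 (tendsto_nhds_unique h1 h2)
  have hz1 : a₁ = b₁ := by
    have h1 : Tendsto (fun n => dist (a' n) (b' n)) U (𝓝 (dist a₁ b₁)) := ha₁.dist hb₁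
    have h2 : Tendsto (fun n => dist (a' n) (b' n)) U (𝓝 0) :=
      squeeze_zero (fun _ => dist_nonneg) hab' h0
    exact dist_eq_zero.1 (tendsto_nhds_unique h1 h2)
  subst hz0; subst hz1
  have hX : AtSeg a₀ a₁ t₀ x₀ := by
    constructor
    · exact tendsto_nhds_unique (ha₀.dist hx₀)
        ((ht₀.mul (ha₀.dist ha₁)).congr (fun n => ((hx n).1).symm))
    · exact tendsto_nhds_unique (hx₀.dist ha₁)
        (((tendsto_const_nhds.sub ht₀).mul (ha₀.dist ha₁)).congr (fun n => ((hx n).2).symm))
  have hY : AtSeg a₀ a₁ t₀ y₀ := by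
    constructor
    · exact tendsto_nhds_unique (hb₀.dist hy₀)
        ((ht₀.mul (hb₀.dist hb₁)).congr (fun n => ((hy n).1).symm))
    · exact tendsto_nhds_unique (hy₀.dist hb₁)
        (((tendsto_const_nhds.sub ht₀).mul (hb₀.dist hb₁)).congr (fun n => ((hy n).2).symm))
  have hpa : dist d.p a₀ ≤ S :=
    le_of_tendsto (tendsto_const_nhds.dist ha₀) (Eventually.of_forall ha)
  have hpa' : dist d.p a₁ ≤ S :=
    le_of_tendsto (tendsto_const_nhds.dist ha₁) (Eventually.of_forall ha')
  have haa0 : dist a₀ a₁ ≤ ρ₁ :=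
    le_of_tendsto (ha₀.dist ha₁) (Eventually.of_forall haa)
  have hxy0 : κ ≤ dist x₀ y₀ :=
    ge_of_tendsto (hx₀.dist hy₀) (Eventually.of_forall hxy)
  have := h.atSeg_unique hpa hpa' (by linarith) hX hY
  rw [this, dist_self] at hxy0
  linarith

/-- going back along a segment -/
theorem RollAx.mv_back (h : RollAx d S ρ C) {A : P} {b x : M} (hA : d.sz A ≤ S - 2)
    (hb : dist (d.pr A) b < ρ) (hx : Btw (d.pr A) x b) :
    d.mv (d.mv A b) x = d.mv A x := by
  have hρ := h.rho_pos
  have hρ1 := h.rho_le_one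
  have hpb : dist d.p b ≤ S := (h.dist_p_mv hA).trans (by linarith)
  have hpa : dist d.p (d.pr A) ≤ S := (h.dist_le_sz A).trans (by linarith)
  have hax : dist (d.pr A) x < ρ := lt_of_le_of_lt hx.dist_left_le hb
  have hpx : dist d.p x ≤ S := (h.dist_p_mv hA).trans (by linarith)
  have hB := h.pr_mv A b (by linarith) hpb hb
  have hBsz := h.sz_mv A b (by linarith) hpb hb
  have hbx : dist b x < ρ := by
    rw [dist_comm]; exact lt_of_le_of_lt hx.dist_right_le hb
  have hC := h.pr_mv (d.mv A b) x (by linarith) hpx (by rw [hB]; exact hbx)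
  have hCsz := h.sz_mv (d.mv A b) x (by linarith) hpx (by rw [hB]; exact hbx)
  rw [hB] at hCsz
  have h1 : d.mv (d.mv (d.mv A b) x) (d.pr A) = d.mv (d.mv A b) (d.pr A) :=
    h.mv_mv (d.mv A b) x (d.pr A) (by linarith) hpa (by rw [hB, dist_comm]; exact hb)
      (by rw [hB]; exact hx.symm)
  rw [h.mv_rev A b (by linarith) hpb hb] at h1
  have h2 := h.mv_rev (d.mv (d.mv A b) x) (d.pr A) (by linarith) hpa
    (by rw [hC, dist_comm]; exact hax)
  rw [h1, hC] at h2
  exact h2.symm

/-- comparison of two neighbouring rows -/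
theorem row_step (h : RollAx d S ρ C) {A : P} {a' b b' : M} {k : ℝ} (hk : 0 < k)
    (hA : d.sz A ≤ S - 2)
    (ha' : dist (d.pr A) a' < ρ) (hb : dist (d.pr A) b < ρ / 2) (hbb : dist b b' < ρ)
    (hflat : ∀ x, Btw (d.pr A) x a' → ∀ y z, dist x y < k → dist x z < k →
      d.mv (d.mv (d.mv A x) y) z = d.mv (d.mv A x) z)
    (huc : ∀ t : ℝ, 0 ≤ t → t ≤ 1 → ∀ x y, AtSeg (d.pr A) a' t x → AtSeg b b' t y →
      dist x y < k / 2) :
    d.mv (d.mv A a') b' = d.mv (d.mv A b) b' := by
  have hρ := h.rho_pos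
  have hρ1 := h.rho_le_one
  have hpa : dist d.p (d.pr A) ≤ S := (h.dist_le_sz A).trans (by linarith)
  have hpa2 : dist d.p (d.pr A) ≤ S - 2 := (h.dist_le_sz A).trans hA
  have hpa' : dist d.p a' ≤ S := (h.dist_p_mv hA).trans (by linarith)
  have hpb : dist d.p b ≤ S := (h.dist_p_mv hA).trans (by linarith)
  have hpb' : dist d.p b' ≤ S := by
    have := dist_triangle4 d.p (d.pr A) b b'
    linarith
  have hB := h.pr_mv A b (by linarith) hpb (by linarith)
  have hBsz := h.sz_mv A b (by linarith) hpb (by linarith)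
  obtain ⟨K, hK⟩ := exists_nat_gt (dist (d.pr A) a' / (k / 2))
  have hK0 : (0 : ℝ) < K := lt_of_le_of_lt (by positivity) hK
  have hK' : dist (d.pr A) a' / K < k / 2 := by
    rw [div_lt_iff₀ hK0]
    rw [div_lt_iff₀ (by positivity)] at hK
    linarith
  have hcast : ∀ i : ℕ, i ≤ K → (i : ℝ) / K ≤ 1 := by
    intro i hi
    rw [div_le_one hK0]; exact_mod_cast hi
  have hX : ∀ i : ℕ, i ≤ K → ∃ x, AtSeg (d.pr A) a' (i / K) x := fun i hi =>
    h.exists_atSeg _ _ hpa hpa' ha' _ (by positivity) (hcast i hi)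
  have hY : ∀ i : ℕ, i ≤ K → ∃ x, AtSeg b b' (i / K) x := fun i hi =>
    h.exists_atSeg _ _ hpb hpb' hbb _ (by positivity) (hcast i hi)
  have key : ∀ i : ℕ, i ≤ K → ∀ x y, AtSeg (d.pr A) a' (i / K) x → AtSeg b b' (i / K) y →
      d.mv (d.mv A x) y = d.mv (d.mv A b) y := by
    intro i
    induction i with
    | zero =>
      intro _ x y hx hy
      have hx0 : dist (d.pr A) x = 0 := by rw [hx.1]; simp
      have hy0 : dist b y = 0 := by rw [hy.1]; simp
      have hx1 := dist_eq_zero.1 hx0
      have hy1 := dist_eq_zero.1 hy0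
      subst hy1
      rw [← hx1, h.mv_self A (by linarith)]
      have := h.mv_self (d.mv A b) (by linarith)
      rw [hB] at this
      exact this.symm
    | succ i ih =>
      intro hi x' y' hx' hy'
      have hi' : i ≤ K := by omega
      obtain ⟨x, hx⟩ := hX i hi'
      obtain ⟨y, hy⟩ := hY i hi'
      have hle : (i : ℝ) / K ≤ ((i + 1 : ℕ) : ℝ) / K := by
        gcongr
        simp
      have hpx' : dist d.p x' ≤ S := by
        have h1 := hx'.btw.dist_left_le
        have h2 := h.dist_p_mv (b := x') hA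
        linarith
      have hpy' : dist d.p y' ≤ S := by
        have h1 := hy'.btw.dist_left_le
        have h2 := dist_triangle4 d.p (d.pr A) b y'
        linarith
      obtain ⟨hbx, hdx⟩ := h.atSeg_btw hpa hpa' hpx' ha' (by positivity) hle (hcast _ hi) hx hx'
      obtain ⟨hby, -⟩ := h.atSeg_btw hpb hpb' hpy' hbb (by positivity) hle (hcast _ hi) hy hy'
      have hd1 : dist x y < k / 2 := huc _ (by positivity) (hcast _ hi') x y hx hy
      have hd2 : dist x' y' < k / 2 := huc _ (by positivity) (hcast _ hi) x' y' hx' hy'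
      have hd3 : dist x x' < k / 2 := by
        rw [hdx]
        have : (((i + 1 : ℕ) : ℝ) / K - i / K) * dist (d.pr A) a' = dist (d.pr A) a' / K := by
          push_cast; field_simp; ring
        rw [this]; exact hK'
      have hd4 : dist x y' < k := by
        have := dist_triangle x x' y'
        linarith
      have e1 : d.mv (d.mv (d.mv A b) y) y' = d.mv (d.mv A b) y' :=
        h.mv_mv (d.mv A b) y y' (by linarith) hpy'
          (by rw [hB]; exact lt_of_le_of_lt hy'.btw.dist_left_le hbb) (by rw [hB]; exact hby)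
      have e2 := ih hi' x y hx hy
      have e3 := hflat x hx.btw y y' (by linarith) hd4
      have e4 := hflat x hx.btw x' y' (by linarith) hd4
      have e5 : d.mv (d.mv A x) x' = d.mv A x' :=
        h.mv_mv A x x' (by linarith) hpx' (lt_of_le_of_lt hx'.btw.dist_left_le ha') hbx
      rw [← e1, ← e2, e3, ← e4, e5]
  exact key K le_rfl a' b' (by rw [div_self hK0.ne']; exact atSeg_one _ _)
    (by rw [div_self hK0.ne']; exact atSeg_one _ _)

/-- the conclusion of the margin lemma for one pair of paths -/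
def MarginPair (d : RollData M P) (ρ : ℝ) (N : ℕ) (r k τ : ℝ) (c c' : ℕ → M) : Prop :=
  ∀ i < N, ∀ s : ℝ, 0 ≤ s → s ≤ 1 → (i + s) / N ≤ 1 - τ →
    ∀ y y' x, AtSeg (c i) (c (i + 1)) s y → AtSeg (c' i) (c' (i + 1)) s y' → Btw y x y' →
      d.Reach ρ (r - k) (d.mv (d.mv (d.hol c i) y) x) ∨
      d.Reach ρ (r - k) (d.mv (d.mv (d.hol c' i) y') x)

/-- the two paths have the same holonomy at time `(i + s) / N` -/
def ExactAt (d : RollData M P) (c c' : ℕ → M) (i : ℕ) (s : ℝ) : Prop :=
  ∀ y y', AtSeg (c i) (c (i + 1)) s y → AtSeg (c' i) (c' (i + 1)) s y' →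
    d.mv (d.mv (d.hol c i) y) y' = d.mv (d.hol c' i) y'

/-- distance between corresponding points of two close paths -/
theorem dist_atSeg_le {c c' : ℕ → M} {i : ℕ} {s ε η : ℝ} (_hs0 : 0 ≤ s) (_hs1 : s ≤ 1)
    (hc : dist (c i) (c (i + 1)) ≤ ε) (hc' : dist (c' i) (c' (i + 1)) ≤ ε)
    (hη : dist (c i) (c' i) ≤ η)
    {y y' : M} (hy : AtSeg (c i) (c (i + 1)) s y) (hy' : AtSeg (c' i) (c' (i + 1)) s y') :
    dist y y' ≤ η + 2 * ε := by
  have h1 := dist_triangle4 y (c i) (c' i) y'
  have h2 : dist y (c i) ≤ ε := by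
    rw [dist_comm]; exact hy.btw.dist_left_le.trans hc
  have h3 : dist (c' i) y' ≤ ε := hy'.btw.dist_left_le.trans hc'
  linarith

/-- exactness on one piece -/
theorem exact_piece [ProperSpace M] (h : RollAx d S ρ C) {N : ℕ} (hN : 0 < N) {r k τ L η : ℝ}
    (hL0 : 0 ≤ L) (hrS : r ≤ S) (hLS : L ≤ S - 21 / 10) (hk : 0 < k) (hLN : L / N ≤ ρ / 100)
    (hη : η ≤ ρ / 4)
    (hZ : d.Z ρ r) {c c' : ℕ → M} (hc : StepPath d.p N L c) (hc' : StepPath d.p N L c')
    (hcl : ∀ j ≤ N, dist (c j) (c' j) ≤ η) (hM : MarginPair d ρ N r k τ c c')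
    {i : ℕ} (hi : i < N) (hE : d.mv (d.hol c i) (c' i) = d.hol c' i)
    {s : ℝ} (hs0 : 0 ≤ s) (hs1 : s ≤ 1) (hsτ : (i + s) / N ≤ 1 - τ) : ExactAt d c c' i s := by
  have hρ := h.rho_pos
  have hρ1 := h.rho_le_one
  have hN0 : (0 : ℝ) < N := by exact_mod_cast hN
  have hε0 : 0 ≤ L / N := by positivity
  have hNL : (N : ℝ) * (L / N) = L := by field_simp
  have hiL : (i : ℝ) * (L / N) ≤ L := by
    calc (i : ℝ) * (L / N) ≤ N * (L / N) := by gcongr
      _ = L := hNL
  obtain ⟨hr, hp⟩ := d.hol_reach h (c := c) (i := i) hc.1 hε0 (by linarith) (by linarith)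
    (fun j hj => hc.2 j (by omega))
  obtain ⟨hr', hp'⟩ := d.hol_reach h (c := c') (i := i) hc'.1 hε0 (by linarith) (by linarith)
    (fun j hj => hc'.2 j (by omega))
  have hsz := hr.sz_le h (by linarith)
  have hsz' := hr'.sz_le h (by linarith)
  have hci := hc.2 i hi
  have hci' := hc'.2 i hi
  have hpc : dist d.p (c i) ≤ S - 21 / 10 := by
    rw [← hp]; exact (h.dist_le_sz _).trans (by linarith)
  have hpc' : dist d.p (c' i) ≤ S - 21 / 10 := by
    rw [← hp']; exact (h.dist_le_sz _).trans (by linarith)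
  have hpc1 : dist d.p (c (i + 1)) ≤ S - 2 := by
    have := dist_triangle d.p (c i) (c (i + 1))
    linarith
  have hpc1' : dist d.p (c' (i + 1)) ≤ S - 2 := by
    have := dist_triangle d.p (c' i) (c' (i + 1))
    linarith
  set k' : ℝ := min k (ρ / 2) with hk'
  have hk'0 : 0 < k' := lt_min hk (by linarith)
  obtain ⟨ε, hε, huc⟩ := seg_uc h (ρ₁ := ρ / 2) (κ := k' / 2) (by linarith) (by positivity)
  obtain ⟨K, hK⟩ := exists_nat_gt ((L / N) / ε)
  have hK0 : (0 : ℝ) < K := lt_of_le_of_lt (by positivity) hK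
  have hKε : (L / N) / K ≤ ε := by
    rw [div_le_iff₀ hK0]
    rw [div_lt_iff₀ hε] at hK
    linarith
  have hcast : ∀ m : ℕ, m ≤ K → (m : ℝ) * s / K ≤ s := by
    intro m hm
    rw [div_le_iff₀ hK0]
    have : (m : ℝ) ≤ K := by exact_mod_cast hm
    nlinarith
  have key : ∀ m : ℕ, m ≤ K → ExactAt d c c' i (m * s / K) := by
    intro m
    induction m with
    | zero =>
      intro _ y y' hy hy'
      have hx0 : dist (c i) y = 0 := by rw [hy.1]; simp
      have hy0 : dist (c' i) y' = 0 := by rw [hy'.1]; simp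
      have hx1 := dist_eq_zero.1 hx0
      have hy1 := dist_eq_zero.1 hy0
      rw [← hx1, ← hy1]
      have e1 := h.mv_self (d.hol c i) (by linarith)
      have e2 := h.mv_self (d.hol c' i) (by linarith)
      rw [hp] at e1
      rw [hp'] at e2
      rw [e1, e2, hE]
    | succ m ih =>
      intro hm y y' hy hy'
      have hm' : m ≤ K := by omega
      have hle : (m : ℝ) * s / K ≤ ((m + 1 : ℕ) : ℝ) * s / K := by
        gcongr
        simp
      have hs1m : ((m + 1 : ℕ) : ℝ) * s / K ≤ 1 := (hcast _ hm).trans hs1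
      obtain ⟨u, hu⟩ := h.exists_atSeg (c i) (c (i + 1)) (by linarith) (by linarith)
        (by linarith) (m * s / K) (by positivity) (hle.trans hs1m)
      obtain ⟨u', hu'⟩ := h.exists_atSeg (c' i) (c' (i + 1)) (by linarith) (by linarith)
        (by linarith) (m * s / K) (by positivity) (hle.trans hs1m)
      have hcu : dist (c i) u ≤ ρ / 100 := hu.btw.dist_left_le.trans (by linarith)
      have hcu' : dist (c' i) u' ≤ ρ / 100 := hu'.btw.dist_left_le.trans (by linarith)
      have hcy : dist (c i) y ≤ ρ / 100 := hy.btw.dist_left_le.trans (by linarith)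
      have hcy' : dist (c' i) y' ≤ ρ / 100 := hy'.btw.dist_left_le.trans (by linarith)
      have hpu : dist d.p u ≤ S - 2 := by
        have := dist_triangle d.p (c i) u
        linarith
      have hpu' : dist d.p u' ≤ S - 2 := by
        have := dist_triangle d.p (c' i) u'
        linarith
      have hpy : dist d.p y ≤ S - 2 := by
        have := dist_triangle d.p (c i) y
        linarith
      have hpy' : dist d.p y' ≤ S - 2 := by
        have := dist_triangle d.p (c' i) y'
        linarith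
      obtain ⟨hbu, hdu⟩ := h.atSeg_btw (by linarith) (by linarith) (by linarith) (by linarith)
        (by positivity) hle hs1m hu hy
      obtain ⟨hbu', hdu'⟩ := h.atSeg_btw (by linarith) (by linarith) (by linarith) (by linarith)
        (by positivity) hle hs1m hu' hy'
      have hdiff : (((m + 1 : ℕ) : ℝ) * s / K - m * s / K) = s / K := by
        push_cast; field_simp; ring
      have hduε : dist u y ≤ ε := by
        rw [hdu, hdiff]
        calc s / K * dist (c i) (c (i + 1)) ≤ 1 / K * (L / N) := by gcongr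
          _ = (L / N) / K := by ring
          _ ≤ ε := hKε
      have hduε' : dist u' y' ≤ ε := by
        rw [hdu', hdiff]
        calc s / K * dist (c' i) (c' (i + 1)) ≤ 1 / K * (L / N) := by gcongr
          _ = (L / N) / K := by ring
          _ ≤ ε := hKε
      have huy : dist u y < ρ / 2 := by
        have := hu.btw.dist_left_le
        have h1 : dist u y ≤ dist (c i) y := hbu.dist_right_le
        linarith
      have huu' : dist u u' ≤ η + 2 * (ρ / 100) :=
        dist_atSeg_le (by positivity) (hle.trans hs1m) (by linarith) (by linarith)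
          (hcl i (by omega)) hu hu'
      have hyy' : dist y y' ≤ η + 2 * (ρ / 100) :=
        dist_atSeg_le (by positivity) hs1m (by linarith) (by linarith)
          (hcl i (by omega)) hy hy'
      have hprA : d.pr (d.mv (d.hol c i) u) = u :=
        h.pr_mv _ _ (by linarith) (by linarith) (by rw [hp]; linarith)
      have hszA : d.sz (d.mv (d.hol c i) u) ≤ S - 2 :=
        (h.sz_mv _ _ (by linarith) (by linarith) (by rw [hp]; linarith)).trans
          (by rw [hp]; linarith)
      have hA' : d.mv (d.mv (d.hol c i) u) u' = d.mv (d.hol c' i) u' := ih hm' u u' hu hu'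
      have hrow := row_step h (A := d.mv (d.hol c i) u) (a' := u') (b := y) (b' := y') hk'0
        hszA (by rw [hprA]; linarith) (by rw [hprA]; exact huy) (by linarith)
        (by
          rw [hprA]
          intro x hx v z hv hz
          have hτm : ((i : ℝ) + m * s / K) / N ≤ 1 - τ := by
            refine le_trans ?_ hsτ
            have := hcast m hm'
            gcongr
          have hreach : d.Reach ρ (r - k) (d.mv (d.mv (d.hol c i) u) x) := by
            rcases hM i hi _ (by positivity) (hle.trans hs1m) hτm u u' x hu hu' hx with h1 | h1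
            · exact h1
            · rw [← hA', h.mv_back hszA (by rw [hprA]; linarith) (by rw [hprA]; exact hx)] at h1
              exact h1
          have hux : dist u x ≤ dist u u' := hx.dist_left_le
          have hpx : dist d.p x ≤ S := by
            have := dist_triangle d.p u x
            linarith
          have hprx : d.pr (d.mv (d.mv (d.hol c i) u) x) = x :=
            h.pr_mv _ _ (by linarith) hpx (by rw [hprA]; linarith)
          refine d.flat h hrS hZ hreach ?_ ?_ ?_ ?_
          · rw [hprx]; exact lt_of_lt_of_le hv (min_le_left _ _)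
          · rw [hprx]; exact lt_of_lt_of_le hz (min_le_left _ _)
          · rw [hprx]; exact lt_of_lt_of_le hv (min_le_right _ _)
          · rw [hprx]; exact lt_of_lt_of_le hz (min_le_right _ _))
        (by
          rw [hprA]
          intro t ht0 ht1 x y'' hx hy''
          exact huc u u' y y' (by linarith) (by linarith) (by linarith) hduε hduε' t ht0 ht1
            x y'' hx hy'')
      have e1 : d.mv (d.mv (d.hol c i) u) y = d.mv (d.hol c i) y :=
        h.mv_mv _ _ _ (by linarith) (by linarith) (by rw [hp]; linarith) (by rw [hp]; exact hbu)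
      have e2 : d.mv (d.mv (d.hol c' i) u') y' = d.mv (d.hol c' i) y' :=
        h.mv_mv _ _ _ (by linarith) (by linarith) (by rw [hp']; linarith)
          (by rw [hp']; exact hbu')
      rw [hA', e2, e1] at hrow
      exact hrow.symm
  have := key K le_rfl
  rwa [show (K : ℝ) * s / K = s by field_simp] at this

/-- exactness (3.3) -/
theorem exactness [ProperSpace M] (h : RollAx d S ρ C) {N : ℕ} (hN : 0 < N) {r k τ L η : ℝ}
    (hL0 : 0 ≤ L) (hrS : r ≤ S) (hLS : L ≤ S - 21 / 10) (hk : 0 < k) (hLN : L / N ≤ ρ / 100)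
    (hη : η ≤ ρ / 4)
    (hZ : d.Z ρ r) {c c' : ℕ → M} (hc : StepPath d.p N L c) (hc' : StepPath d.p N L c')
    (hcl : ∀ j ≤ N, dist (c j) (c' j) ≤ η) (hM : MarginPair d ρ N r k τ c c')
    {i : ℕ} (hi : i < N)
    {s : ℝ} (hs0 : 0 ≤ s) (hs1 : s ≤ 1) (hsτ : (i + s) / N ≤ 1 - τ) : ExactAt d c c' i s := by
  have hρ := h.rho_pos
  have hρ1 := h.rho_le_one
  have hN0 : (0 : ℝ) < N := by exact_mod_cast hN
  have hε0 : 0 ≤ L / N := by positivity
  have hNL : (N : ℝ) * (L / N) = L := by field_simp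
  have hE : ∀ j : ℕ, j ≤ i → d.mv (d.hol c j) (c' j) = d.hol c' j := by
    intro j
    induction j with
    | zero =>
      intro _
      show d.mv d.A0 (c' 0) = d.A0
      rw [hc'.1]
      have := h.mv_self d.A0 (by rw [h.sz_A0]; linarith)
      rwa [h.pr_A0] at this
    | succ j ih =>
      intro hj
      have hjN : j < N := by omega
      have h1 : ((j : ℝ) + 1) / N ≤ 1 - τ := by
        refine le_trans ?_ hsτ
        have : ((j : ℝ) + 1) ≤ i := by exact_mod_cast hj
        exact (div_le_div_iff_of_pos_right hN0).2 (by linarith)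
      have := exact_piece h hN hL0 hrS hLS hk hLN hη hZ hc hc' hcl hM hjN (ih (by omega))
        (s := 1) zero_le_one le_rfl h1 (c (j + 1)) (c' (j + 1)) (atSeg_one _ _) (atSeg_one _ _)
      exact this
  exact exact_piece h hN hL0 hrS hLS hk hLN hη hZ hc hc' hcl hM hi (hE i le_rfl) hs0 hs1 hsτ

end Pool.Ambrose
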