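import Pool.Agent.Ambrose.AbsChain

/-! # Ambrose, part A: the induction step and Theorem A -/

open Metric Set Filter Topology

namespace Pool.Ambrose

variable {M P : Type*} [MetricSpace M] {d : RollData M P} {S ρ C : ℝ}

/-- the statement of the margin lemma -/
def MarginStmt (d : RollData M P) (S ρ : ℝ) : Prop :=
  ∀ (N : ℕ) (r R η τ : ℝ), 0 < N → 0 < r → r ≤ R → R + 2 ≤ S → 100 * (R + 1) < N * ρ →
    0 < η → η ≤ ρ / 4 → d.Z ρ r → 0 < τ → τ < 1 →
    ∃ e > 0, e ≤ 1 ∧ ∃ k > 0, ∀ c c' : ℕ → M,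
      StepPath d.p N (r + e) c → StepPath d.p N (r + e) c' → c N = c' N →
      (∀ j ≤ N, dist (c j) (c' j) ≤ η) → MarginPair d ρ N r k τ c c'

theorem stepPath_rs {p : M} {N : ℕ} {L : ℝ} {g : ℕ → M} (hg : StepPath p N L g) :
    StepPath p N L (xt (rs (N := N) g)) := by
  refine ⟨by rw [xt_rs g (Nat.zero_le _)]; exact hg.1, fun i hi => ?_⟩
  rw [xt_rs g hi.le, xt_rs g hi]
  exact hg.2 i hi

/-- the induction step -/
theorem step_up [ProperSpace M] (h : RollAx d S ρ C) (hrays : d.Rays S ρ)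
    (hm : MarginStmt d S ρ) {r : ℝ} (hr : 0 < r) (hrS : r + 11 / 5 ≤ S) (hZ : d.Z ρ r) :
    ∃ e > 0, d.Z ρ (r + e) := by
  classical
  have hρ := h.rho_pos
  have hρ1 := h.rho_le_one
  have hC := h.C_nonneg
  obtain ⟨n, hn⟩ := exists_nat_gt (100 * (r + 1) / ρ)
  have hn' : 100 * (r + 1) < ((n + 1 : ℕ) : ℝ) * ρ := by
    rw [div_lt_iff₀ hρ] at hn
    push_cast
    linarith
  have hN0 : (0 : ℝ) < ((n + 1 : ℕ) : ℝ) := by exact_mod_cast Nat.succ_pos n
  -- finite cover
  have hXc := isCompact_stepPath (M := M) d.p (n + 1) (L := r + 1) (by linarith)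
  obtain ⟨T, -, hTf, hT⟩ := hXc.finite_cover_balls (e := ρ / 4 / 2) (by positivity)
  set F : Finset (Fin (n + 1 + 1) → M) := hTf.toFinset with hF
  set q : ℝ := 1 / (4 * (F.card + 1) * (1 + C) ^ 2) with hq
  have hq0 : 0 < q := by positivity
  have h1C : 1 ≤ (1 + C) ^ 2 := by nlinarith
  have hq1 : q < 1 := by
    rw [hq, div_lt_one (by positivity)]
    have : (0 : ℝ) ≤ F.card := Nat.cast_nonneg _
    nlinarith
  have hqF : (F.card : ℝ) * (2 * (C * q * (1 + C))) ≤ 1 / 2 := by
    have h1 : (F.card : ℝ) * (2 * (C * q * (1 + C))) ≤ (F.card + 1) * (2 * ((1 + C) * q * (1 + C))) := by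
      have : (0 : ℝ) ≤ F.card := Nat.cast_nonneg _
      gcongr <;> linarith
    have h2 : ((F.card : ℝ) + 1) * (2 * ((1 + C) * q * (1 + C))) = 1 / 2 := by
      rw [hq]
      field_simp
      ring
    linarith
  obtain ⟨e₀, he₀, -, k, hk, hM₀⟩ := hm (n + 1) r r (ρ / 4) (q / ((n + 1 : ℕ) : ℝ))
    (Nat.succ_pos n) hr le_rfl (by linarith) hn' (by positivity) le_rfl hZ (by positivity)
    (by
      rw [div_lt_one hN0]
      have : (1 : ℝ) ≤ ((n + 1 : ℕ) : ℝ) := by
        push_cast
        have : (0 : ℝ) ≤ n := Nat.cast_nonneg n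
        linarith
      linarith)
  set e : ℝ := min e₀ (1 / 10) with he_def
  have he : 0 < e := lt_min he₀ (by norm_num)
  have he1 : e ≤ 1 / 10 := min_le_right _ _
  have hM : ∀ c c' : ℕ → M,
      StepPath d.p (n + 1) (r + e) c → StepPath d.p (n + 1) (r + e) c' → c (n + 1) = c' (n + 1) →
      (∀ j ≤ n + 1, dist (c j) (c' j) ≤ ρ / 4) →
      MarginPair d ρ (n + 1) r k (q / ((n + 1 : ℕ) : ℝ)) c c' := by
    have hmono : ∀ c : ℕ → M, StepPath d.p (n + 1) (r + e) c →
        StepPath d.p (n + 1) (r + e₀) c := by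
      intro c hc
      refine ⟨hc.1, fun i hi => (hc.2 i hi).trans ?_⟩
      have : e ≤ e₀ := min_le_left _ _
      gcongr
    intro c c' hc hc' hw hcl
    exact hM₀ c c' (hmono c hc) (hmono c' hc') hw hcl
  clear_value e
  set L : ℝ := r + e with hL
  have hL0 : 0 < L := by linarith
  have hLS : L ≤ S - 21 / 10 := by linarith
  set ε : ℝ := L / ((n + 1 : ℕ) : ℝ) with hε
  have hερ : ε ≤ ρ / 100 := by
    rw [hε, div_le_iff₀ hN0]
    linarith
  have hε0 : 0 ≤ ε := by positivity
  have hNL : ((n + 1 : ℕ) : ℝ) * ε = L := by rw [hε]; field_simp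
  -- halving
  have hhalf : ∀ δ : ℝ, 0 ≤ δ →
      (∀ g, StepPath d.p (n + 1) L g → d.D (d.hol g (n + 1)) ≤ δ) →
      ∀ g, StepPath d.p (n + 1) L g → d.D (d.hol g (n + 1)) ≤ δ / 2 := by
    intro δ hδ0 hδ g hg
    set g' : Fin (n + 1 + 1) → M := rs g with hg'
    have hgP : g' ∈ PathSet d.p (n + 1) L (g (n + 1)) :=
      ⟨stepPath_rs hg, xt_rs g le_rfl⟩
    obtain ⟨c, hcK, hcP, hgeo⟩ := exists_ray h (Nat.succ_pos n) hL0.le hLS hερ hgP
    set K := connectedComponentIn (PathSet d.p (n + 1) L (g (n + 1))) g' with hK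
    have hKsub : K ⊆ PathSet d.p (n + 1) L (g (n + 1)) := connectedComponentIn_subset _ _
    set f : (Fin (n + 1 + 1) → M) → ℝ := fun c => d.D (d.hol (xt c) (n + 1)) with hf
    have hch := chain_bound (K := K) isPreconnected_connectedComponentIn F (η := ρ / 4)
      (ε₀ := 2 * (C * (q * ε) * ((1 + C) * δ))) (by
        intro x hx
        have h1 := hKsub hx
        have h2 : x ∈ {c : Fin (n + 1 + 1) → M | StepPath d.p (n + 1) (r + 1) (xt c)} := by
          refine ⟨h1.1.1, fun i hi => (h1.1.2 i hi).trans ?_⟩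
          have : L ≤ r + 1 := by linarith
          gcongr
        have h3 := hT h2
        simp only [mem_iUnion, exists_prop] at h3 ⊢
        obtain ⟨z, hz, hxz⟩ := h3
        exact ⟨z, by rw [hF, Set.Finite.mem_toFinset]; exact hz, ball_subset_closedBall hxz⟩)
      f (by positivity) (by
        intro x hx y hy hxy
        have h1 := hKsub hx
        have h2 := hKsub hy
        have hcl : ∀ j ≤ n + 1, dist (xt x j) (xt y j) ≤ ρ / 4 := by
          intro j hj
          rw [xt_apply _ hj, xt_apply _ hj]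
          exact (dist_le_pi_dist x y _).trans hxy
        have hw : xt x (n + 1) = xt y (n + 1) := by rw [h1.2, h2.2]
        have hMP := hM _ _ h1.1 h2.1 hw hcl
        have hex := exactness h (Nat.succ_pos n) hL0.le (by linarith) hLS hk hερ le_rfl hZ
          h1.1 h2.1 hcl hMP (i := n) (Nat.lt_succ_self n) (s := 1 - q) (by linarith)
          (by linarith) (by
            push_cast
            field_simp
            linarith)
        exact key_est h hε hL0.le hLS hερ hδ0 hq0 hq1 hδ h1.1 h2.1 hw hex)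
    have h3 := hch g' (mem_connectedComponentIn hgP) c hcK
    -- the ray
    have hray : f c = 0 := by
      have hl : ∀ i < n + 1, dist (xt c i) (xt c (i + 1)) = dist (xt c 0) (xt c 1) := by
        intro i
        induction i with
        | zero => intro _; rfl
        | succ i ih =>
          intro hi
          rw [← (hgeo i (by omega)).1]
          exact ih (by omega)
      have hl0 : dist (xt c 0) (xt c 1) ≤ ε := hcP.1.2 0 (Nat.succ_pos n)
      refine hrays (xt c) (n + 1) (dist (xt c 0) (xt c 1)) hcP.1.1 (by linarith) ?_ hl ?_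
      · calc ((n + 1 : ℕ) : ℝ) * dist (xt c 0) (xt c 1) ≤ ((n + 1 : ℕ) : ℝ) * ε := by gcongr
          _ = L := hNL
          _ ≤ S := by linarith
      · intro i hi
        rw [(hgeo i hi).2, hl i (by omega)]
    have h4 : f g' = d.D (d.hol g (n + 1)) := by
      simp only [hf]
      rw [d.hol_congr (c := xt g') (c' := g) (fun j hj => xt_rs g hj)]
    rw [hray, h4, sub_zero] at h3
    have h5 : (F.card : ℝ) * (2 * (C * (q * ε) * ((1 + C) * δ))) ≤ δ / 2 := by
      have h6 : (F.card : ℝ) * (2 * (C * (q * ε) * ((1 + C) * δ))) =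
          ((F.card : ℝ) * (2 * (C * q * (1 + C)))) * (ε * δ) := by ring
      rw [h6]
      have h7 : ε * δ ≤ 1 * δ := by
        gcongr
        linarith
      calc ((F.card : ℝ) * (2 * (C * q * (1 + C)))) * (ε * δ) ≤ 1 / 2 * (1 * δ) := by
            gcongr
        _ = δ / 2 := by ring
    exact (le_abs_self _).trans (h3.trans h5)
  -- boundedness
  obtain ⟨B, hB⟩ := h.D_bdd
  have hB' : ∀ g, StepPath d.p (n + 1) L g → d.D (d.hol g (n + 1)) ≤ max B 0 := by
    intro g hg
    obtain ⟨h1, -⟩ := d.hol_reach h (c := g) (i := n + 1) hg.1 hε0 (by linarith)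
      (by rw [hNL]; linarith) (fun j hj => hg.2 j hj)
    rw [hNL] at h1
    exact (hB _ ((h1.sz_le h (by linarith)).trans (by linarith))).trans (le_max_left _ _)
  have hpow : ∀ j : ℕ, ∀ g, StepPath d.p (n + 1) L g →
      d.D (d.hol g (n + 1)) ≤ max B 0 * (1 / 2) ^ j := by
    intro j
    induction j with
    | zero => intro g hg; simpa using hB' g hg
    | succ j ih =>
      intro g hg
      have := hhalf _ (by positivity) ih g hg
      rw [pow_succ]
      linarith
  have hzero : ∀ g, StepPath d.p (n + 1) L g → d.D (d.hol g (n + 1)) = 0 := by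
    intro g hg
    refine le_antisymm ?_ (h.D_nonneg _)
    have hlim : Tendsto (fun j : ℕ => max B 0 * (1 / 2 : ℝ) ^ j) atTop (𝓝 (max B 0 * 0)) :=
      (tendsto_pow_atTop_nhds_zero_of_lt_one (by norm_num) (by norm_num)).const_mul _
    rw [mul_zero] at hlim
    exact ge_of_tendsto' hlim (fun j => hpow j g hg)
  refine ⟨e, he, ?_⟩
  exact d.lemmaR h (Nat.succ_pos n) hL0 (by linarith) (by
    have : ε < ρ / 2 := by linarith
    exact this) hzero

/-- start of the induction -/
theorem Z_start (h : RollAx d S ρ C) (hrays : d.Rays S ρ) (hS : 1 ≤ S) : d.Z ρ (ρ / 4) := by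
  have hρ := h.rho_pos
  have hρ1 := h.rho_le_one
  have hD : ∀ x, dist d.p x < ρ / 4 → d.D (d.mv d.A0 x) = 0 := by
    intro x hx
    have := hrays (fun j => if j = 0 then d.p else x) 1 (dist d.p x) (by simp) (by linarith)
      (by push_cast; linarith) (by intro i hi; have : i = 0 := by omega
                                   subst this; simp) (by intro i hi; omega)
    simpa [RollData.hol] using this
  have key : ∀ ℓ A, d.Reach ρ ℓ A → ℓ < ρ / 4 → A = d.mv d.A0 (d.pr A) ∧
      dist d.p (d.pr A) ≤ ℓ := by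
    intro ℓ A hA
    induction hA with
    | base h0 =>
      intro _
      refine ⟨(h.mv_self d.A0 (by rw [h.sz_A0]; linarith)).symm, ?_⟩
      rw [h.pr_A0, dist_self]; exact h0
    | @step ℓ₁ ℓ₂ A b hA hb hle ih =>
      intro hlt
      have hd := dist_nonneg (x := d.pr A) (y := b)
      obtain ⟨h1, h2⟩ := ih (by linarith)
      have hsz := hA.sz_le h (by linarith)
      have hpb : dist d.p b ≤ S := (h.dist_p_mv hsz).trans (by linarith)
      have hpr := h.pr_mv A b (by linarith) hpb hb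
      have hdb : dist d.p b ≤ ℓ₂ := (h.dist_p_mv hsz).trans hle
      rw [hpr]
      refine ⟨?_, hdb⟩
      conv_lhs => rw [h1]
      refine d.fan_step h (t := ℓ₂) (by rw [h.sz_A0]; linarith) (by linarith [hA.nonneg])
        (by linarith) ?_ ?_ ?_
      · rw [h.pr_A0]
        intro x hx
        exact hD x (by linarith)
      · rw [h.pr_A0]; linarith
      · rw [h.pr_A0]; exact hdb
  intro ℓ A hℓ hA
  obtain ⟨h1, h2⟩ := key ℓ A hA hℓ
  rw [h1]
  exact hD _ (by linarith)

/-- **Theorem A** -/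
theorem theoremA_of_margin [ProperSpace M] (h : RollAx d S ρ C) (hrays : d.Rays S ρ)
    (hm : MarginStmt d S ρ) {r : ℝ} (hr : r + 11 / 5 ≤ S) : d.Z ρ r := by
  have hρ := h.rho_pos
  have hρ1 := h.rho_le_one
  by_contra hcon
  have hmono : ∀ r₁ r₂, r₁ ≤ r₂ → d.Z ρ r₂ → d.Z ρ r₁ := fun r₁ r₂ h12 hZ ℓ A hℓ hA =>
    hZ ℓ A (by linarith) hA
  have hr0 : ρ / 4 < r := by
    by_contra h1
    push Not at h1
    rcases le_or_gt 1 S with hS | hS
    · exact hcon (hmono _ _ h1 (Z_start h hrays hS))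
    · refine hcon (fun ℓ A hℓ hA => ?_)
      have := hA.nonneg
      linarith
  have hS : 1 ≤ S := by linarith
  set T : Set ℝ := {x | d.Z ρ x} with hT
  have hne : T.Nonempty := ⟨ρ / 4, Z_start h hrays hS⟩
  have hbdd : BddAbove T := by
    refine ⟨r, fun x hx => ?_⟩
    by_contra h1
    push Not at h1
    exact hcon (hmono _ _ h1.le hx)
  have hsr : sSup T ≤ r := by
    refine csSup_le hne (fun x hx => ?_)
    by_contra h1
    push Not at h1
    exact hcon (hmono _ _ h1.le hx)
  have hρs : ρ / 4 ≤ sSup T := le_csSup hbdd (Z_start h hrays hS)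
  have hZs : d.Z ρ (sSup T) := by
    intro ℓ A hℓ hA
    obtain ⟨x, hx, hℓx⟩ := exists_lt_of_lt_csSup hne hℓ
    exact hx ℓ A hℓx hA
  obtain ⟨e, he, hZe⟩ := step_up h hrays hm (by linarith) (by linarith) hZs
  have := le_csSup hbdd hZe
  linarith

end Pool.Ambrose
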