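import Pool.Agent.Ambrose.AbsExact

/-! # Ambrose, part A: key estimate (3.4), chains (3.5) -/

open Metric Set Filter Topology

namespace Pool.Ambrose

variable {M P : Type*} [MetricSpace M] {d : RollData M P} {S ρ C : ℝ}

/-- first half of the key estimate -/
theorem key_half (h : RollAx d S ρ C) {n : ℕ} {L δ q ε : ℝ} (hε : ε = L / ((n + 1 : ℕ) : ℝ))
    (hL0 : 0 ≤ L) (hLS : L ≤ S - 21 / 10) (hερ : ε ≤ ρ / 100) (hδ0 : 0 ≤ δ)
    (hq0 : 0 < q) (hq1 : q < 1)
    (hδ : ∀ g, StepPath d.p (n + 1) L g → d.D (d.hol g (n + 1)) ≤ δ)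
    {c : ℕ → M} (hc : StepPath d.p (n + 1) L c)
    {a m : M} (ha : AtSeg (c n) (c (n + 1)) (1 - q) a)
    (ham : dist a m ≤ q * ε) (hmw : dist m (c (n + 1)) ≤ q * ε) :
    |d.D (d.mv (d.mv (d.mv (d.hol c n) a) m) (c (n + 1))) - d.D (d.hol c (n + 1))| ≤
      C * (q * ε) * ((1 + C) * δ) := by
  have hρ := h.rho_pos
  have hρ1 := h.rho_le_one
  have hC := h.C_nonneg
  have hN0 : (0 : ℝ) < ((n + 1 : ℕ) : ℝ) := by exact_mod_cast Nat.succ_pos n
  have hε0 : 0 ≤ ε := by rw [hε]; positivity
  have hNL : ((n + 1 : ℕ) : ℝ) * ε = L := by rw [hε]; field_simp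
  have hnL : (n : ℝ) * ε ≤ L := by
    calc (n : ℝ) * ε ≤ ((n + 1 : ℕ) : ℝ) * ε := by
          gcongr
          simp
      _ = L := hNL
  have hcs : ∀ j < n + 1, dist (c j) (c (j + 1)) ≤ ε := fun j hj => by
    rw [hε]; exact hc.2 j hj
  obtain ⟨hr, hp⟩ := d.hol_reach h (c := c) (i := n) hc.1 hε0 (by linarith) (by linarith)
    (fun j hj => hcs j (by omega))
  have hsz := hr.sz_le h (by linarith)
  have hqε : q * ε ≤ ε := by nlinarith
  have hqε0 : 0 ≤ q * ε := by positivity
  have hcn := hcs n (by omega)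
  have hpc : dist d.p (c n) ≤ S - 21 / 10 := by
    rw [← hp]; exact (h.dist_le_sz _).trans (by linarith)
  have hpw : dist d.p (c (n + 1)) ≤ S - 2 := by
    have := dist_triangle d.p (c n) (c (n + 1))
    linarith
  have hca : dist (c n) a ≤ (1 - q) * ε := by
    rw [ha.1]
    have : 0 ≤ 1 - q := by linarith
    gcongr
  have hca' : dist (c n) a ≤ ε := hca.trans (by nlinarith)
  have haw : dist a (c (n + 1)) ≤ q * ε := by
    rw [ha.2]
    have : 1 - (1 - q) = q := by ring
    rw [this]
    gcongr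
  have hpa : dist d.p a ≤ S - 2 := by
    have := dist_triangle d.p (c n) a
    linarith
  have hpm : dist d.p m ≤ S - 1 := by
    have := dist_triangle d.p a m
    linarith
  have hprA : d.pr (d.mv (d.hol c n) a) = a :=
    h.pr_mv _ _ (by linarith) (by linarith) (by rw [hp]; linarith)
  have hszA : d.sz (d.mv (d.hol c n) a) ≤ S - 2 :=
    (h.sz_mv _ _ (by linarith) (by linarith) (by rw [hp]; linarith)).trans
      (by rw [hp]; linarith)
  have e1 : d.mv (d.mv (d.hol c n) a) (c (n + 1)) = d.hol c (n + 1) :=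
    h.mv_mv _ _ _ (by linarith) (by linarith) (by rw [hp]; linarith) (by rw [hp]; exact ha.btw)
  rw [← e1]
  -- `D` along the rays from `c n`
  have hD1 : ∀ x, dist (c n) x ≤ ε → d.D (d.mv (d.hol c n) x) ≤ δ := by
    intro x hx
    have hpx : dist d.p x ≤ S := by
      have := dist_triangle d.p (c n) x
      linarith
    have hsx : d.sz (d.mv (d.hol c n) x) ≤ S :=
      (h.sz_mv _ x (by linarith) hpx (by rw [hp]; linarith)).trans (by rw [hp]; linarith)
    have hpath : StepPath d.p (n + 1) L (RollData.pad c n x) := by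
      refine d.stepPath_pad (by rw [← hε]; exact hε0) hc.1 (fun j hj => hc.2 j (by omega)) ?_
      rw [← hε]; exact hx
    have := hδ _ hpath
    rwa [d.hol_pad h (Nat.lt_succ_self n) (by linarith) hpx (by rw [hp]; linarith) hsx] at this
  have hD2 : ∀ x, dist a x ≤ q * ε → d.D (d.mv (d.mv (d.hol c n) a) x) ≤ (1 + C) * δ := by
    intro x hx
    have hcx : dist (c n) x ≤ ε := by
      have := dist_triangle (c n) a x
      nlinarith
    have hpx : dist d.p x ≤ S := by
      have := dist_triangle d.p (c n) x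
      linarith
    have h1 := h.tri (d.hol c n) a x ε δ (by linarith) (by linarith) hpx (by linarith)
      (by rw [hp]; exact hca') (by rw [hp]; exact hcx) (hx.trans hqε) hδ0 (by
        intro y x' hy hx'
        rw [hp] at hx'
        have h2 : dist (c n) y ≤ max (dist (c n) a) (dist (c n) x) :=
          h.conv (c n) a x y (by linarith) (by linarith) hpx (by linarith) (by linarith)
            (by linarith) hy
        exact hD1 x' ((hx'.dist_left_le.trans h2).trans (max_le hca' hcx)))
    have h2 := hD1 x hcx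
    have h3 := (abs_le.1 h1).2
    have h4 : C * ε * δ ≤ C * δ := by
      have : ε ≤ 1 := by linarith
      nlinarith [mul_nonneg hC hδ0]
    linarith
  refine h.tri _ m (c (n + 1)) (q * ε) ((1 + C) * δ) (by linarith) (by linarith) (by linarith)
    (by linarith) (by rw [hprA]; exact ham) (by rw [hprA]; exact haw) hmw (by positivity) ?_
  intro y x hy hx
  rw [hprA] at hx
  have h2 : dist a y ≤ max (dist a m) (dist a (c (n + 1))) :=
    h.conv a m (c (n + 1)) y (by linarith) (by linarith) (by linarith) (by linarith)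
      (by linarith) (by linarith) hy
  exact hD2 x ((hx.dist_left_le.trans h2).trans (max_le ham haw))

/-- key estimate (3.4) -/
theorem key_est (h : RollAx d S ρ C) {n : ℕ} {L δ q ε : ℝ} (hε : ε = L / ((n + 1 : ℕ) : ℝ))
    (hL0 : 0 ≤ L) (hLS : L ≤ S - 21 / 10) (hερ : ε ≤ ρ / 100) (hδ0 : 0 ≤ δ)
    (hq0 : 0 < q) (hq1 : q < 1)
    (hδ : ∀ g, StepPath d.p (n + 1) L g → d.D (d.hol g (n + 1)) ≤ δ)
    {c c' : ℕ → M} (hc : StepPath d.p (n + 1) L c) (hc' : StepPath d.p (n + 1) L c')
    (hw : c (n + 1) = c' (n + 1))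
    (hE : ExactAt d c c' n (1 - q)) :
    |d.D (d.hol c (n + 1)) - d.D (d.hol c' (n + 1))| ≤ 2 * (C * (q * ε) * ((1 + C) * δ)) := by
  have hρ := h.rho_pos
  have hρ1 := h.rho_le_one
  have hC := h.C_nonneg
  have hN0 : (0 : ℝ) < ((n + 1 : ℕ) : ℝ) := by exact_mod_cast Nat.succ_pos n
  have hε0 : 0 ≤ ε := by rw [hε]; positivity
  have hNL : ((n + 1 : ℕ) : ℝ) * ε = L := by rw [hε]; field_simp
  have hnL : (n : ℝ) * ε ≤ L := by
    calc (n : ℝ) * ε ≤ ((n + 1 : ℕ) : ℝ) * ε := by
          gcongr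
          simp
      _ = L := hNL
  have hqε : q * ε ≤ ε := by nlinarith
  have hqε0 : 0 ≤ q * ε := by positivity
  have hcs : ∀ j < n + 1, dist (c j) (c (j + 1)) ≤ ε := fun j hj => by
    rw [hε]; exact hc.2 j hj
  have hcs' : ∀ j < n + 1, dist (c' j) (c' (j + 1)) ≤ ε := fun j hj => by
    rw [hε]; exact hc'.2 j hj
  obtain ⟨hr, hp⟩ := d.hol_reach h (c := c) (i := n) hc.1 hε0 (by linarith) (by linarith)
    (fun j hj => hcs j (by omega))
  obtain ⟨hr', hp'⟩ := d.hol_reach h (c := c') (i := n) hc'.1 hε0 (by linarith) (by linarith)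
    (fun j hj => hcs' j (by omega))
  have hsz := hr.sz_le h (by linarith)
  have hsz' := hr'.sz_le h (by linarith)
  have hpc : dist d.p (c n) ≤ S - 21 / 10 := by
    rw [← hp]; exact (h.dist_le_sz _).trans (by linarith)
  have hpc' : dist d.p (c' n) ≤ S - 21 / 10 := by
    rw [← hp']; exact (h.dist_le_sz _).trans (by linarith)
  have hcn := hcs n (by omega)
  have hcn' := hcs' n (by omega)
  have hpw : dist d.p (c (n + 1)) ≤ S - 2 := by
    have := dist_triangle d.p (c n) (c (n + 1))
    linarith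
  have hpw' : dist d.p (c' (n + 1)) ≤ S - 2 := by rw [← hw]; exact hpw
  obtain ⟨a, ha⟩ := h.exists_atSeg (c n) (c (n + 1)) (by linarith) (by linarith) (by linarith)
    (1 - q) (by linarith) (by linarith)
  obtain ⟨b, hb⟩ := h.exists_atSeg (c' n) (c' (n + 1)) (by linarith) (by linarith) (by linarith)
    (1 - q) (by linarith) (by linarith)
  have haw : dist a (c (n + 1)) ≤ q * ε := by
    rw [ha.2, show 1 - (1 - q) = q by ring]
    gcongr
  have hbw : dist b (c' (n + 1)) ≤ q * ε := by
    rw [hb.2, show 1 - (1 - q) = q by ring]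
    gcongr
  have hab : dist a b ≤ 2 * (q * ε) := by
    have := dist_triangle a (c (n + 1)) b
    rw [dist_comm (c (n + 1)) b, ] at this
    rw [← hw] at hbw
    linarith
  have hpa : dist d.p a ≤ S - 2 := by
    have h1 := dist_triangle d.p (c n) a
    have h2 := ha.btw.dist_left_le
    linarith
  have hpb : dist d.p b ≤ S - 2 := by
    have h1 := dist_triangle d.p (c' n) b
    have h2 := hb.btw.dist_left_le
    linarith
  obtain ⟨m, hm⟩ := h.exists_atSeg a b (by linarith) (by linarith) (by linarith)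
    (1 / 2) (by norm_num) (by norm_num)
  have ham : dist a m ≤ q * ε := by rw [hm.1]; linarith
  have hbm : dist b m ≤ q * ε := by rw [dist_comm, hm.2]; linarith
  have hwm : dist m (c (n + 1)) ≤ q * ε := by
    have h1 := h.conv (c (n + 1)) a b m (by linarith) (by linarith) (by linarith)
      (by rw [dist_comm]; linarith) (by rw [dist_comm, hw]; linarith) (by linarith) hm.btw
    rw [dist_comm]
    refine h1.trans (max_le (by rw [dist_comm]; exact haw) (by rw [dist_comm, hw]; exact hbw))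
  have k1 := key_half h hε hL0 hLS hερ hδ0 hq0 hq1 hδ hc ha ham hwm
  have k2 := key_half h hε hL0 hLS hερ hδ0 hq0 hq1 hδ hc' hb hbm (by rw [← hw]; exact hwm)
  have hprA : d.pr (d.mv (d.hol c n) a) = a :=
    h.pr_mv _ _ (by linarith) (by linarith) (by
      rw [hp]; exact lt_of_le_of_lt ha.btw.dist_left_le (by linarith))
  have hszA : d.sz (d.mv (d.hol c n) a) ≤ S - 2 := by
    refine (h.sz_mv _ _ (by linarith) (by linarith) ?_).trans ?_
    · rw [hp]; exact lt_of_le_of_lt ha.btw.dist_left_le (by linarith)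
    · rw [hp]
      have := ha.btw.dist_left_le
      linarith
  have hx := hE a b ha hb
  rw [← hx, h.mv_back hszA (by rw [hprA]; linarith) (by rw [hprA]; exact hm.btw), ← hw] at k2
  have h1 := abs_le.1 k1
  have h2 := abs_le.1 k2
  rw [abs_le]
  constructor <;> linarith [h1.1, h1.2, h2.1, h2.2]

/-- a function which varies little at small distances on a connected set -/
theorem chain_bound {X : Type*} [PseudoMetricSpace X] {K : Set X} (hK : IsPreconnected K)
    (F : Finset X) {η ε₀ : ℝ} (hcov : K ⊆ ⋃ z ∈ F, closedBall z (η / 2)) (f : X → ℝ)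
    (hε₀ : 0 ≤ ε₀)
    (hf : ∀ x ∈ K, ∀ y ∈ K, dist x y ≤ η → |f x - f y| ≤ ε₀) :
    ∀ x ∈ K, ∀ y ∈ K, |f x - f y| ≤ F.card * ε₀ := by
  classical
  intro x₀ hx₀ y₀ hy₀
  -- `I` good: all points of `K` in the balls of `I` are good
  let good : Finset X → Prop := fun I => I ⊆ F ∧ I.Nonempty ∧
    (∃ z ∈ I, x₀ ∈ closedBall z (η / 2)) ∧
    ∀ z ∈ I, ∀ x ∈ K, x ∈ closedBall z (η / 2) → |f x₀ - f x| ≤ I.card * ε₀
  have hclose : ∀ z x y : X, x ∈ closedBall z (η / 2) → y ∈ closedBall z (η / 2) →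
      dist x y ≤ η := by
    intro z x y hx hy
    rw [mem_closedBall] at hx hy
    have := dist_triangle x z y
    rw [dist_comm z y] at this
    linarith
  obtain ⟨z₀, hz₀F, hz₀⟩ : ∃ z ∈ F, x₀ ∈ closedBall z (η / 2) := by
    have := hcov hx₀
    simpa using this
  have hgood0 : good {z₀} := by
    refine ⟨by simpa using hz₀F, Finset.singleton_nonempty _, ⟨z₀, by simp, hz₀⟩, ?_⟩
    intro z hz x hx hxz
    rw [Finset.mem_singleton] at hz
    subst hz
    have := hf x₀ hx₀ x hx (hclose _ _ _ hz₀ hxz)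
    simpa using this
  -- maximal good set
  obtain ⟨I, hI, hmax⟩ : ∃ I, good I ∧ ∀ J, good J → J.card ≤ I.card := by
    have hfin : (F.powerset.filter good).Nonempty := by
      refine ⟨{z₀}, ?_⟩
      rw [Finset.mem_filter, Finset.mem_powerset]
      exact ⟨hgood0.1, hgood0⟩
    obtain ⟨I, hI, hmax⟩ := Finset.exists_max_image _ Finset.card hfin
    rw [Finset.mem_filter] at hI
    refine ⟨I, hI.2, fun J hJ => hmax J ?_⟩
    rw [Finset.mem_filter, Finset.mem_powerset]
    exact ⟨hJ.1, hJ⟩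
  obtain ⟨hIF, hIne, ⟨z₁, hz₁, hx₀z₁⟩, hIg⟩ := hI
  have hcard : (I.card : ℝ) * ε₀ ≤ F.card * ε₀ := by
    have : I.card ≤ F.card := Finset.card_le_card hIF
    gcongr
  by_cases hy : ∃ z ∈ I, y₀ ∈ closedBall z (η / 2)
  · obtain ⟨z, hz, hyz⟩ := hy
    exact (hIg z hz y₀ hy₀ hyz).trans hcard
  · exfalso
    -- two closed sets covering `K`
    let U : Set X := ⋃ z ∈ I, closedBall z (η / 2)
    let V : Set X := ⋃ z ∈ F \ I, closedBall z (η / 2)
    have hUc : IsClosed U := isClosed_biUnion_finset (fun z _ => isClosed_closedBall)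
    have hVc : IsClosed V := isClosed_biUnion_finset (fun z _ => isClosed_closedBall)
    have hKUV : K ⊆ U ∪ V := by
      intro x hx
      have := hcov hx
      simp only [mem_iUnion, exists_prop] at this
      obtain ⟨z, hz, hxz⟩ := this
      by_cases hzI : z ∈ I
      · left
        simp only [U, mem_iUnion, exists_prop]
        exact ⟨z, hzI, hxz⟩
      · right
        simp only [V, mem_iUnion, exists_prop]
        exact ⟨z, Finset.mem_sdiff.2 ⟨hz, hzI⟩, hxz⟩
    have hU : (K ∩ U).Nonempty := by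
      refine ⟨x₀, hx₀, ?_⟩
      simp only [U, mem_iUnion, exists_prop]
      exact ⟨z₁, hz₁, hx₀z₁⟩
    have hV : (K ∩ V).Nonempty := by
      refine ⟨y₀, hy₀, ?_⟩
      rcases hKUV hy₀ with h1 | h1
      · simp only [U, mem_iUnion, exists_prop] at h1
        exact absurd h1 hy
      · exact h1
    obtain ⟨u, huK, huU, huV⟩ := (isPreconnected_closed_iff.1 hK) U V hUc hVc hKUV hU hV
    simp only [U, V, mem_iUnion, exists_prop] at huU huV
    obtain ⟨z, hz, huz⟩ := huU
    obtain ⟨z', hz', huz'⟩ := huV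
    rw [Finset.mem_sdiff] at hz'
    have hnew : good (insert z' I) := by
      refine ⟨Finset.insert_subset hz'.1 hIF, Finset.insert_nonempty _ _,
        ⟨z₁, Finset.mem_insert_of_mem hz₁, hx₀z₁⟩, ?_⟩
      rw [Finset.card_insert_of_notMem hz'.2]
      push_cast
      intro v hv x hx hxv
      rcases Finset.mem_insert.1 hv with h1 | h1
      · subst h1
        have h2 := hIg z hz u huK huz
        have h3 := hf u huK x hx (hclose _ _ _ huz' hxv)
        have h4 : f x₀ - f x = (f x₀ - f u) + (f u - f x) := by ring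
        rw [h4]
        exact (abs_add_le _ _).trans (by linarith)
      · have h2 := hIg v h1 x hx hxv
        linarith
    have := hmax _ hnew
    rw [Finset.card_insert_of_notMem hz'.2] at this
    omega

end Pool.Ambrose
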