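import Pool.Agent.Ambrose.AbsBasic

/-! # Ambrose, part A: paths, fan lemma, Lemma R -/

open Metric Set

namespace Pool.Ambrose

variable {M P : Type*} [MetricSpace M] {d : RollData M P} {S ρ C : ℝ}

namespace RollData

theorem hol_congr {c c' : ℕ → M} {i : ℕ} (hc : ∀ j ≤ i, c j = c' j) :
    d.hol c i = d.hol c' i := by
  induction i with
  | zero => rfl
  | succ i ih =>
    show d.mv (d.hol c i) (c (i + 1)) = d.mv (d.hol c' i) (c' (i + 1))
    rw [ih (fun j hj => hc j (by omega)), hc (i + 1) le_rfl]

/-- partial step paths -/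
theorem hol_reach (h : RollAx d S ρ C) {c : ℕ → M} {ε : ℝ} {i : ℕ} (h0 : c 0 = d.p)
    (hε0 : 0 ≤ ε)
    (hε : ε < ρ) (hi : i * ε ≤ S) (hc : ∀ j < i, dist (c j) (c (j + 1)) ≤ ε) :
    d.Reach ρ (i * ε) (d.hol c i) ∧ d.pr (d.hol c i) = c i := by
  induction i with
  | zero =>
    refine ⟨RollData.Reach.base (by simp), ?_⟩
    show d.pr d.A0 = c 0
    rw [h.pr_A0, h0]
  | succ i ih =>
    push_cast at hi
    obtain ⟨h1, h2⟩ := ih (by linarith) (fun j hj => hc j (by omega))
    have h3 := hc i (by omega)
    have hsz := h1.sz_le h (by linarith)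
    constructor
    · refine RollData.Reach.step h1 (by rw [h2]; linarith) ?_
      rw [h2]; push_cast; linarith
    · refine h.pr_mv _ _ (by linarith) ?_ (by rw [h2]; linarith)
      refine (h.dist_p_mv hsz).trans ?_
      rw [h2]; linarith

/-- fan lemma along a path -/
theorem hol_fan (h : RollAx d S ρ C) {c : ℕ → M} {j m : ℕ} (hjm : j ≤ m) {t : ℝ}
    (hcj : d.pr (d.hol c j) = c j)
    (hB : d.sz (d.hol c j) + t ≤ S) (ht0 : 0 ≤ t) (ht : t < ρ / 2)
    (hD : ∀ x, dist (c j) x ≤ t → d.D (d.mv (d.hol c j) x) = 0)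
    (hc : ∀ i, j ≤ i → i ≤ m → dist (c j) (c i) ≤ t) :
    d.hol c m = d.mv (d.hol c j) (c m) := by
  induction m, hjm using Nat.le_induction with
  | base =>
    rw [← hcj]
    exact (h.mv_self _ (by linarith)).symm
  | succ m hm ih =>
    show d.mv (d.hol c m) (c (m + 1)) = _
    rw [ih (fun i h1 h2 => hc i h1 (by omega))]
    refine fan_step h hB ht0 ht (by rw [hcj]; exact hD) ?_ ?_
    · rw [hcj]; exact hc m hm (by omega)
    · rw [hcj]; exact hc (m + 1) (by omega) le_rfl

/-- the path `c 0, ..., c i, z, z, ...` -/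
def pad (c : ℕ → M) (i : ℕ) (z : M) : ℕ → M := fun j => if j ≤ i then c j else z

omit [MetricSpace M] in
theorem pad_le {c : ℕ → M} {i j : ℕ} {z : M} (hj : j ≤ i) : pad c i z j = c j := by
  simp [pad, hj]

omit [MetricSpace M] in
theorem pad_gt {c : ℕ → M} {i j : ℕ} {z : M} (hj : i < j) : pad c i z j = z := by
  simp [pad, not_le.2 hj]

theorem hol_pad_le {c : ℕ → M} {i j : ℕ} {z : M} (hj : j ≤ i) :
    d.hol (pad c i z) j = d.hol c j :=
  hol_congr (fun _ hk => pad_le (hk.trans hj))

theorem hol_pad (h : RollAx d S ρ C) {c : ℕ → M} {i j : ℕ} {z : M} (hj : i < j)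
    (hsz : d.sz (d.hol c i) ≤ S) (hz : dist d.p z ≤ S) (hd : dist (d.pr (d.hol c i)) z < ρ)
    (hsz' : d.sz (d.mv (d.hol c i) z) ≤ S) :
    d.hol (pad c i z) j = d.mv (d.hol c i) z := by
  induction j, hj using Nat.le_induction with
  | base =>
    show d.mv (d.hol (pad c i z) i) (pad c i z (i + 1)) = _
    rw [hol_pad_le le_rfl, pad_gt (by omega)]
  | succ j hj ih =>
    show d.mv (d.hol (pad c i z) j) (pad c i z (j + 1)) = _
    rw [ih, pad_gt (by omega)]
    have : d.pr (d.mv (d.hol c i) z) = z := h.pr_mv _ _ hsz hz hd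
    conv_lhs => rw [← this]
    rw [this]
    have h2 := h.mv_self (d.mv (d.hol c i) z) hsz'
    rwa [this] at h2

theorem stepPath_pad {c : ℕ → M} {i N : ℕ} {L : ℝ} {z : M} (hL : 0 ≤ L / N) (h0 : c 0 = d.p)
    (hc : ∀ j < i, dist (c j) (c (j + 1)) ≤ L / N) (hz : dist (c i) z ≤ L / N) :
    StepPath d.p N L (pad c i z) := by
  refine ⟨by rw [pad_le (Nat.zero_le _), h0], fun j _ => ?_⟩
  rcases lt_trichotomy j i with hj | hj | hj
  · rw [pad_le hj.le, pad_le hj]; exact hc j hj
  · subst hj
    rw [pad_le le_rfl, pad_gt (by omega)]; exact hz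
  · rw [pad_gt hj, pad_gt (by omega), dist_self]; exact hL

/-- Lemma R (3.1) -/
theorem lemmaR (h : RollAx d S ρ C) {N : ℕ} (hN : 0 < N) {L : ℝ} (hL : 0 < L) (hLS : L ≤ S - 1)
    (hLN : L / N < ρ / 2) (H : ∀ c, StepPath d.p N L c → d.D (d.hol c N) = 0) : d.Z ρ L := by
  have hρ := h.rho_pos
  have hρ1 := h.rho_le_one
  have hN0 : (0 : ℝ) < N := by exact_mod_cast hN
  have hμ : 0 < L / N := by positivity
  have hNL : (N : ℝ) * (L / N) = L := by field_simp
  -- D vanishes on padded paths
  have hD0 : ∀ (c : ℕ → M) (i : ℕ), i < N → c 0 = d.p →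
      (∀ j < i, dist (c j) (c (j + 1)) ≤ L / N) → ∀ z, dist (c i) z ≤ L / N →
      d.D (d.mv (d.hol c i) z) = 0 := by
    intro c i hi h0 hc z hz
    have hiL : (i : ℝ) * (L / N) ≤ L := by
      calc (i : ℝ) * (L / N) ≤ N * (L / N) := by gcongr
        _ = L := hNL
    obtain ⟨hr, hp⟩ := hol_reach h h0 hμ.le (by linarith) (by linarith) hc
    have hsz := hr.sz_le h (by linarith)
    have hpz : dist d.p z ≤ S := (h.dist_p_mv hsz).trans (by rw [hp]; linarith)
    have hsz' : d.sz (d.mv (d.hol c i) z) ≤ S :=
      (h.sz_mv _ z (by linarith) hpz (by rw [hp]; linarith)).trans (by rw [hp]; linarith)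
    have := H _ (stepPath_pad hμ.le h0 hc hz)
    rwa [hol_pad h hi (by linarith) hpz (by rw [hp]; linarith) hsz'] at this
  have claim : ∀ ℓ A, d.Reach (L / N) ℓ A → ℓ < L → ∃ i < N, ∃ c : ℕ → M, c 0 = d.p ∧
      (∀ j < i, dist (c j) (c (j + 1)) ≤ L / N) ∧ ∃ b, A = d.mv (d.hol c i) b ∧
      dist (c i) b ≤ L / N ∧ i * (L / N) + dist (c i) b ≤ ℓ := by
    intro ℓ A hA
    induction hA with
    | base h0 =>
      intro _
      refine ⟨0, hN, fun _ => d.p, rfl, by simp, d.p, ?_, by simp [hμ.le], by simpa using h0⟩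
      show d.A0 = d.mv d.A0 d.p
      have := h.mv_self d.A0 (by rw [h.sz_A0]; linarith)
      rw [h.pr_A0] at this
      exact this.symm
    | @step ℓ₁ ℓ₂ A x hA hx hle ih =>
      intro hlt
      have hdx := dist_nonneg (x := d.pr A) (y := x)
      obtain ⟨i, hi, c, h0, hc, b, hAb, hb, hle'⟩ := ih (by linarith)
      have hiL : (i : ℝ) * (L / N) ≤ L := by
        calc (i : ℝ) * (L / N) ≤ N * (L / N) := by gcongr
          _ = L := hNL
      obtain ⟨hr, hp⟩ := hol_reach h h0 hμ.le (by linarith) (by linarith) hc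
      have hsz := hr.sz_le h (by linarith)
      have hpb : dist d.p b ≤ S := (h.dist_p_mv hsz).trans (by rw [hp]; linarith)
      have hprA : d.pr A = b := by
        rw [hAb]; exact h.pr_mv _ _ (by linarith) hpb (by rw [hp]; linarith)
      rw [hprA] at hx hle hdx
      have hpx : dist d.p x ≤ S := by
        have h1 := dist_triangle d.p b x
        have h2 : dist d.p b ≤ ℓ₁ := by
          have h3 := h.dist_p_mv (b := b) hsz
          rw [hp] at h3
          linarith
        linarith
      have hpc : dist d.p (c i) ≤ S := by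
        have := h.dist_le_sz (d.hol c i)
        rw [hp] at this
        linarith
      have hcx : dist (c i) x < ρ := by
        have := dist_triangle (c i) b x
        linarith
      -- flatness of the triangle `c i, b, y` as soon as `dist (c i) y ≤ L / N`
      have hT : ∀ y, dist (c i) y ≤ L / N → dist b y < ρ → dist d.p y ≤ S →
          d.mv (d.mv (d.hol c i) b) y = d.mv (d.hol c i) y := by
        intro y hy hby hpy
        refine h.tri0 _ b y (by linarith) hpb hpy (by rw [hp]; linarith) (by rw [hp]; linarith)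
          hby ?_
        intro y' z hy' hz
        rw [hp] at hz
        have h1 : dist (c i) y' ≤ max (dist (c i) b) (dist (c i) y) :=
          h.conv (c i) b y y' hpc hpb hpy (by linarith) (by linarith) hby hy'
        exact hD0 c i hi h0 hc z ((hz.dist_left_le.trans h1).trans (max_le hb hy))
      rcases le_or_gt (dist (c i) b + dist b x) (L / N) with hcase | hcase
      · refine ⟨i, hi, c, h0, hc, x, ?_, ?_, ?_⟩
        · rw [hAb]
          exact hT x ((dist_triangle _ _ _).trans hcase) (by linarith) hpx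
        · exact (dist_triangle _ _ _).trans hcase
        · have := dist_triangle (c i) b x
          linarith
      · have hbx : 0 < dist b x := by linarith
        obtain ⟨y, hy⟩ := h.exists_atSeg b x hpb hpx (by linarith)
          ((L / N - dist (c i) b) / dist b x) (by
            apply div_nonneg _ hbx.le
            linarith) (by
            rw [div_le_one hbx]; linarith)
        have hby : dist b y = L / N - dist (c i) b := by
          rw [hy.1]; field_simp
        have hybtw := hy.btw
        have hyx : dist y x = dist b x - dist b y := by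
          unfold Btw at hybtw
          linarith
        have hcy : dist (c i) y ≤ L / N := by
          have := dist_triangle (c i) b y
          linarith
        have hpy : dist d.p y ≤ S := (h.dist_p_mv hsz).trans (by rw [hp]; linarith)
        have hdby := dist_nonneg (x := b) (y := y)
        have hi1 : i + 1 < N := by
          by_contra hcon
          have hiN : (N : ℝ) ≤ (i : ℝ) + 1 := by
            exact_mod_cast (not_lt.1 hcon)
          have : L ≤ ((i : ℝ) + 1) * (L / N) := by
            calc L = (N : ℝ) * (L / N) := hNL.symm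
              _ ≤ _ := by gcongr
          nlinarith [dist_nonneg (x := y) (y := x)]
        refine ⟨i + 1, hi1, pad c i y, by rw [pad_le (Nat.zero_le _), h0], ?_, x, ?_, ?_, ?_⟩
        · intro j hj
          rcases Nat.lt_succ_iff_lt_or_eq.1 hj with hj | hj
          · rw [pad_le hj.le, pad_le hj]; exact hc j hj
          · subst hj
            rw [pad_le le_rfl, pad_gt (by omega)]; exact hcy
        · show d.mv A x = d.mv (d.mv (d.hol (pad c i y) i) (pad c i y (i + 1))) x
          rw [hol_pad_le le_rfl, pad_gt (by omega), ← hT y hcy (by linarith) hpy, ← hAb]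
          have hszA : d.sz A ≤ S := by
            rw [hAb]
            exact (h.sz_mv _ b (by linarith) hpb (by rw [hp]; linarith)).trans
              (by rw [hp]; linarith)
          exact (h.mv_mv A y x hszA hpx (by rw [hprA]; linarith) (by rw [hprA]; exact hybtw)).symm
        · rw [pad_gt (by omega), hyx]; linarith
        · rw [pad_gt (by omega), hyx, hby]
          push_cast
          linarith
  intro ℓ A hℓ hA
  obtain ⟨i, hi, c, h0, hc, b, hAb, hb, -⟩ :=
    claim ℓ A (hA.to_mesh h hμ (by linarith) (by linarith)) hℓ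
  rw [hAb]
  exact hD0 c i hi h0 hc b hb

end RollData

end Pool.Ambrose
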